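import Pool.Agent.R526.LM.Side

/-! # The primes up to `(log X) ^ b` outside the modulus -/

set_option autoImplicit false

open Finset Filter Topology
open Pool.Agent.H510R2.Maier Pool.Agent.H510R2.Maier.G
open Pool.Agent.H378R2 hiding WW DD
open Pool.Agent.R529.LD (DD floor_eq DD_ev tendsto_z')

namespace Pool.Agent.R526.SP

open Classical in
/-- the primes up to `(log X) ^ b` outside the modulus -/
noncomputable def TS (X θ b : ℝ) (S : Finset ℕ) (ps : ℕ) : Finset ℕ :=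
  (Icc 1 ⌊(Real.log X) ^ b⌋₊).filter (fun q => q.Prime ∧ q ∉ PD X (DD θ (Real.log X)) S ps)

theorem mem_TS {X θ b : ℝ} {S : Finset ℕ} {ps q : ℕ} :
    q ∈ TS X θ b S ps ↔ (1 ≤ q ∧ q ≤ ⌊(Real.log X) ^ b⌋₊) ∧ q.Prime ∧ q ∉ PD X (DD θ (Real.log X)) S ps := by
  unfold TS
  rw [mem_filter, mem_Icc]

theorem T_sum (θ b σ : ℝ) (hθ : 0 < θ) (hθ1 : θ < 1) (hθb : θ < b) (hσ : Real.log (b / θ) < σ) :
    ∃ Z0 : ℕ, ∀ Z : ℕ, Z0 ≤ Z → ∀ᶠ X : ℝ in atTop, ∀ (ps : ℕ) (S : Finset ℕ), GoodP Z ps → GoodS X S →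
      ∑ q ∈ TS X θ b S ps, (1 : ℝ) / q ≤ σ := by
  set x : ℝ := σ - Real.log (b / θ) with hx
  have hx0 : 0 < x := by rw [hx]; linarith
  have hb : 0 < b := by linarith
  refine ⟨⌈4 / x⌉₊ + 1, fun Z hZ => ?_⟩
  have hZ4 : 4 / x ≤ Z := (Nat.le_ceil _).trans (by exact_mod_cast (by omega : ⌈4 / x⌉₊ ≤ Z))
  have hZ0 : (0 : ℝ) < Z := lt_of_lt_of_le (by positivity) hZ4
  have c1 := (R1_cell 1 (1 / 4) b θ one_pos (by norm_num) hb hθ).eventually_lt_const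
    (show Real.log (b / θ) < Real.log (b / θ) + x / 4 by linarith)
  have c2 : ∀ᶠ L : ℝ in atTop, 6 / (Real.log L) ^ 2 ≤ x / 4 := by
    filter_upwards [Real.tendsto_log_atTop.eventually_ge_atTop (max 1 (24 / x))] with L hL
    have h1 : 1 ≤ Real.log L := (le_max_left _ _).trans hL
    have h2 : 24 / x ≤ Real.log L := (le_max_right _ _).trans hL
    rw [div_le_iff₀ hx0] at h2
    rw [div_le_iff₀ (by positivity)]
    nlinarith
  have c3 : ∀ᶠ L : ℝ in atTop, (1 / 4 : ℝ) * L ^ θ ≤ 1 * L ^ b := by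
    filter_upwards [eventually_ge_atTop (1 : ℝ)] with L hL
    have h1 : L ^ θ ≤ L ^ b := Real.rpow_le_rpow_of_exponent_le hL hθb.le
    have h2 : 0 ≤ L ^ θ := by positivity
    linarith
  filter_upwards [Real.tendsto_log_atTop.eventually c1, Real.tendsto_log_atTop.eventually c2,
    Real.tendsto_log_atTop.eventually c3, Real.tendsto_log_atTop.eventually (DD_ev θ hθ1),
    Real.tendsto_log_atTop.eventually_gt_atTop (0 : ℝ), eventually_ge_atTop (1 : ℝ)]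
    with X g1 g2 g3 g4 g5 g6 ps S hps hS
  set L := Real.log X with hL
  have hfl := floor_eq (θ := θ) g5
  rw [one_mul] at g1 g3
  set z := ⌊1 / 4 * L ^ θ⌋₊ with hz
  set m := ⌊L ^ b⌋₊ with hm
  have hzm : z ≤ m := Nat.floor_le_floor g3
  have hsub : TS X θ b S ps ⊆ (S ∪ PI z m) ∪ (({ps} : Finset ℕ).filter Nat.Prime) := by
    intro q hq
    rw [mem_TS] at hq
    obtain ⟨⟨h1, h2⟩, h3, h4⟩ := hq
    rw [← hL] at h2
    rw [mem_PD g4 g6, ← hL, hfl] at h4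
    rw [mem_union, mem_union, mem_PI, mem_filter, mem_singleton]
    by_cases h5 : q ∈ S
    · exact Or.inl (Or.inl h5)
    by_cases h6 : q = ps
    · exact Or.inr ⟨h6, h3⟩
    · left; right
      refine ⟨⟨?_, h2⟩, h3⟩
      by_contra h7
      exact h4 ⟨not_lt.1 h7, h3, h5, h6⟩
  have hnn : ∀ q : ℕ, (0 : ℝ) ≤ 1 / q := fun q => by positivity
  have hun : ∀ A B : Finset ℕ, ∑ q ∈ A ∪ B, (1 : ℝ) / q ≤ ∑ q ∈ A, (1 : ℝ) / q + ∑ q ∈ B, (1 : ℝ) / q := by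
    intro A B
    rw [← Finset.sum_union_inter]
    have : 0 ≤ ∑ q ∈ A ∩ B, (1 : ℝ) / q := sum_nonneg fun q _ => hnn q
    linarith
  have h1 : ∑ q ∈ (({ps} : Finset ℕ).filter Nat.Prime), (1 : ℝ) / q ≤ x / 4 := by
    rcases hps with rfl | ⟨hp, hpZ⟩
    · rw [filter_singleton, if_neg (by norm_num), sum_empty]
      linarith
    · rw [filter_singleton, if_pos hp, sum_singleton]
      have h2 : (Z : ℝ) ≤ ps := by exact_mod_cast hpZ.le
      calc (1 : ℝ) / ps ≤ 1 / Z := one_div_le_one_div_of_le hZ0 h2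
        _ ≤ x / 4 := by
            rw [div_le_iff₀ hx0] at hZ4
            rw [div_le_iff₀ hZ0]
            linarith
  have h2 := sum_PI_inv hzm
  have h3 := hS.2
  rw [← hL] at h3
  calc ∑ q ∈ TS X θ b S ps, (1 : ℝ) / q ≤ ∑ q ∈ (S ∪ PI z m) ∪ (({ps} : Finset ℕ).filter Nat.Prime), (1 : ℝ) / q :=
        sum_le_sum_of_subset_of_nonneg hsub fun q _ _ => hnn q
    _ ≤ ∑ q ∈ (S ∪ PI z m), (1 : ℝ) / q + ∑ q ∈ (({ps} : Finset ℕ).filter Nat.Prime), (1 : ℝ) / q := hun _ _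
    _ ≤ (∑ q ∈ S, (1 : ℝ) / q + ∑ q ∈ PI z m, (1 : ℝ) / q) + x / 4 := add_le_add (hun _ _) h1
    _ ≤ σ := by
        rw [h2]
        linarith

end Pool.Agent.R526.SP
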