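import Pool.Agent.R526.SP.Rows
import Pool.Agent.R526.SP.Mert

/-! # Counting destinations -/

set_option autoImplicit false

open Finset Filter Topology
open Pool.Agent.H510R2.Maier Pool.Agent.H510R2.Maier.G
open Pool.Agent.H378R2 hiding WW DD
open Pool.Agent.R529.LD (DD floor_eq DD_ev tendsto_z')

namespace Pool.Agent.R526.SP

open Classical in
/-- the possible destinations of `p` -/
noncomputable def Ph (Z W : ℕ → ℕ) (p : ℕ) : Finset ℕ :=
  (Ioc p (p + W p)).filter (fun m : ℕ => ∀ q : ℕ, q.Prime → q ∣ m → Z p < q)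

theorem mem_Ph {Z W : ℕ → ℕ} {p m : ℕ} :
    m ∈ Ph Z W p ↔ (p < m ∧ m ≤ p + W p) ∧ ∀ q : ℕ, q.Prime → q ∣ m → Z p < q := by
  classical
  unfold Ph
  simp only [Finset.mem_filter, Finset.mem_Ioc]

/-- the windows in which few destinations lie -/
def Nice (Z W : ℕ → ℕ) (ρ t c : ℝ) (n : ℕ) : Prop :=
  ∀ p : ℕ, p ≤ n + ⌊c * (Real.log n) ^ 2⌋₊ → n < p + W p → 0 < (Ph Z W p).card ∧
    (((Ph Z W p).filter (fun m => m ∈ Ioc n (n + ⌊c * (Real.log n) ^ 2⌋₊))).card : ℝ) ≤
      ρ * (Real.log n) ^ (2 - t) * (Ph Z W p).card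

theorem cop_sub {W' n i : ℕ} (hn : n ≡ 0 [MOD W']) (hi : i ≤ n) : (n - i).Coprime W' ↔ i.Coprime W' := by
  obtain ⟨c, hc⟩ := (Nat.modEq_zero_iff_dvd).1 hn
  have key : ∀ a b : ℕ, a + b = W' * c → a.Coprime W' → b.Coprime W' := by
    intro a b hab ha
    rw [Nat.coprime_iff_gcd_eq_one] at ha ⊢
    have h9 : Nat.gcd b W' ∣ Nat.gcd a W' := by
      apply Nat.dvd_gcd _ (Nat.gcd_dvd_right _ _)
      have h10 : Nat.gcd b W' ∣ b + a := by
        rw [add_comm, hab]
        exact Dvd.dvd.mul_right (Nat.gcd_dvd_right _ _) _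
      exact (Nat.dvd_add_right (Nat.gcd_dvd_left _ _)).1 h10
    rw [ha] at h9
    exact Nat.dvd_one.1 h9
  constructor
  · exact key (n - i) i (by omega)
  · exact key i (n - i) (by omega)

theorem cop_add {W' n i : ℕ} (hn : n ≡ 0 [MOD W']) : (n + i).Coprime W' ↔ i.Coprime W' := by
  obtain ⟨c, hc⟩ := (Nat.modEq_zero_iff_dvd).1 hn
  rw [hc]
  exact Nat.coprime_mul_left_add_left _ _ _

/-- the survivors to the right of `p ≤ n` -/
theorem card_left (W' n p N : ℕ) (hn : n ≡ 0 [MOD W']) (hpn : p ≤ n) (hN : n < p + N) :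
    VV W' 0 (n - p - 1) + VV W' 0 (N - (n - p)) ≤ ((Ioc p (p + N)).filter (fun m => m.Coprime W')).card := by
  unfold VV
  set A := (Icc 1 (n - p - 1)).filter (fun h => (0 + h).Coprime W') with hA
  set B := (Icc 1 (N - (n - p))).filter (fun h => (0 + h).Coprime W') with hB
  have h1 : A.card = (A.image (fun i => n - i)).card := by
    rw [card_image_of_injOn]
    intro i hi j hj hij
    rw [mem_coe, hA, mem_filter, mem_Icc] at hi hj
    simp only at hij
    omega
  have h2 : B.card = (B.image (fun i => n + i)).card := by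
    rw [card_image_of_injOn]
    intro i hi j hj hij
    simp only at hij
    omega
  rw [h1, h2, ← card_union_of_disjoint]
  · apply card_le_card
    intro m hm
    rw [mem_union, mem_image, mem_image] at hm
    rw [mem_filter, mem_Ioc]
    rcases hm with ⟨i, hi, rfl⟩ | ⟨i, hi, rfl⟩
    · rw [hA, mem_filter, mem_Icc, zero_add] at hi
      refine ⟨by omega, ?_⟩
      exact (cop_sub hn (by omega)).2 hi.2
    · rw [hB, mem_filter, mem_Icc, zero_add] at hi
      refine ⟨by omega, ?_⟩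
      exact (cop_add hn).2 hi.2
  · rw [disjoint_left]
    intro m hm hm'
    rw [mem_image] at hm hm'
    obtain ⟨i, hi, rfl⟩ := hm
    obtain ⟨j, hj, hj2⟩ := hm'
    rw [hA, mem_filter, mem_Icc] at hi
    rw [hB, mem_filter, mem_Icc] at hj
    omega

/-- the survivors to the right of `p ≥ n` -/
theorem card_right (W' n p N : ℕ) (hn : n ≡ 0 [MOD W']) (hpn : n ≤ p) :
    VV W' 0 N ≤ ((Ioc p (p + N)).filter (fun m => m.Coprime W')).card + (p - n) := by
  unfold VV
  set A := (Icc 1 N).filter (fun h => (0 + h).Coprime W') with hA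
  have h1 : A ⊆ (((Ioc p (p + N)).filter (fun m => m.Coprime W')).image (fun m => m - n)) ∪ Icc 1 (p - n) := by
    intro i hi
    rw [hA, mem_filter, mem_Icc, zero_add] at hi
    rw [mem_union, mem_image, mem_Icc]
    by_cases h : i ≤ p - n
    · exact Or.inr ⟨hi.1.1, h⟩
    · left
      refine ⟨n + i, ?_, by omega⟩
      rw [mem_filter, mem_Ioc]
      exact ⟨by omega, (cop_add hn).2 hi.2⟩
  refine (card_le_card h1).trans ((card_union_le _ _).trans ?_)
  rw [Nat.card_Icc]
  have := card_image_le (s := (Ioc p (p + N)).filter (fun m => m.Coprime W')) (f := fun m => m - n)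
  omega

/-- the destinations in the window -/
theorem card_win (Z W : ℕ → ℕ) (W' n p w : ℕ) (hn : n ≡ 0 [MOD W'])
    (hZ : ∀ q : ℕ, q.Prime → q ∣ W' → q ≤ Z p) :
    ((Ph Z W p).filter (fun m => m ∈ Ioc n (n + w))).card ≤ VV W' 0 w := by
  unfold VV
  have h1 : (Ph Z W p).filter (fun m => m ∈ Ioc n (n + w)) ⊆
      ((Icc 1 w).filter (fun h => (0 + h).Coprime W')).image (fun i => n + i) := by
    intro m hm
    rw [mem_filter, mem_Ph, mem_Ioc] at hm
    obtain ⟨⟨h1, h2⟩, h3⟩ := hm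
    rw [mem_image]
    refine ⟨m - n, ?_, by omega⟩
    rw [mem_filter, mem_Icc, zero_add]
    refine ⟨by omega, ?_⟩
    have h4 : n + (m - n) = m := by omega
    rw [← cop_add hn (i := m - n), h4]
    apply Nat.Coprime.symm
    apply Nat.coprime_of_dvd
    intro q hq hqW hqm
    have := h2 q hq hqm
    have := hZ q hq hqW
    omega
  exact (card_le_card h1).trans card_image_le

/-- the number of destinations -/
theorem card_Ph (Z W : ℕ → ℕ) (W' n p Y : ℕ) (T : Finset ℕ)
    (hT : ∀ q : ℕ, q.Prime → q ≤ Z p → ¬ q ∣ W' → q ∈ T) (h1 : n ≤ p + Y) (h2 : p + W p ≤ n + Y) :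
    ((Ioc p (p + W p)).filter (fun m => m.Coprime W')).card ≤ (Ph Z W p).card + bad W' Y n T := by
  have h3 : (Ioc p (p + W p)).filter (fun m => m.Coprime W') ⊆
      Ph Z W p ∪ T.biUnion (fun q => (Icc (n - Y) (n + Y)).filter (fun m => m.Coprime W' ∧ q ∣ m)) := by
    intro m hm
    rw [mem_filter, mem_Ioc] at hm
    obtain ⟨h4, h5⟩ := hm
    rw [mem_union]
    by_cases h6 : m ∈ Ph Z W p
    · exact Or.inl h6
    · right
      rw [mem_Ph] at h6
      push Not at h6
      obtain ⟨q, hq, hqm, hqZ⟩ := h6 h4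
      rw [mem_biUnion]
      refine ⟨q, hT q hq hqZ ?_, ?_⟩
      · intro hqW
        have h7 : q ∣ Nat.gcd m W' := Nat.dvd_gcd hqm hqW
        rw [Nat.coprime_iff_gcd_eq_one.1 h5] at h7
        exact hq.one_lt.ne' (Nat.dvd_one.1 h7)
      · rw [mem_filter, mem_Icc]
        exact ⟨by omega, h5, hqm⟩
  refine (card_le_card h3).trans ((card_union_le _ _).trans ?_)
  apply Nat.add_le_add_left
  unfold bad
  exact card_biUnion_le

/-- the sizes of the moves near `n` -/
theorem sizes (t : ℝ) (ht : 2 < t) (W : ℕ → ℕ)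
    (hW : Tendsto (fun p : ℕ => (W p : ℝ) / (Real.log p) ^ t) atTop (𝓝 1)) (c e : ℝ) (hc : 0 < c) (he : 0 < e)
    (he1 : e ≤ 1 / 10) :
    ∀ᶠ n : ℕ in atTop, 1 ≤ Real.log n ∧ (⌊c * (Real.log n) ^ 2⌋₊ : ℝ) ≤ e * (Real.log n) ^ t ∧
      ∀ p : ℕ, p ≤ n + ⌊c * (Real.log n) ^ 2⌋₊ → n < p + W p →
        (n : ℝ) ≤ p + (1 + e) * (Real.log n) ^ t ∧ (n : ℝ) / 2 ≤ p ∧ (p : ℝ) ≤ 2 * n ∧
        (1 - 2 * e) * (Real.log n) ^ t ≤ W p ∧ (W p : ℝ) ≤ (1 + 2 * e) * (Real.log n) ^ t := by
  have h1 := hW.eventually (Ioo_mem_nhds (show 1 - e / 2 < 1 by linarith) (show (1 : ℝ) < 1 + e / 2 by linarith))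
  obtain ⟨p₁, hp₁⟩ := eventually_atTop.1 h1
  have hlog : Tendsto (fun n : ℕ => Real.log (n : ℝ)) atTop atTop :=
    Real.tendsto_log_atTop.comp tendsto_natCast_atTop_atTop
  have ht0 : 0 < t := by linarith
  -- small primes
  have e1 : ∀ᶠ n : ℕ in atTop, ∀ p < p₁, p + W p ≤ n := by
    filter_upwards [eventually_ge_atTop (∑ p ∈ range p₁, (p + W p))] with n hn p hp
    exact (Finset.single_le_sum (f := fun p => p + W p) (fun i _ => Nat.zero_le _) (mem_range.2 hp)).trans hn
  have hshift : ∀ a : ℝ, Tendsto (fun L : ℝ => ((L + a) / L) ^ t) atTop (𝓝 1) := by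
    intro a
    have h3 : Tendsto (fun L : ℝ => (L + a) / L) atTop (𝓝 1) := by
      have h4 : Tendsto (fun L : ℝ => 1 + a * L⁻¹) atTop (𝓝 (1 + a * 0)) := (tendsto_inv_atTop_zero.const_mul a).const_add 1
      rw [mul_zero, add_zero] at h4
      refine h4.congr' ?_
      filter_upwards [eventually_gt_atTop (0 : ℝ)] with L hL
      field_simp
    have := h3.rpow_const (p := t) (Or.inl one_ne_zero)
    rwa [Real.one_rpow] at this
  have e2 : ∀ᶠ L : ℝ in atTop, (1 - e / 2) * L ^ t ≤ (L - 1) ^ t := by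
    filter_upwards [(hshift (-1)).eventually_const_lt (show 1 - e / 2 < 1 by linarith), eventually_gt_atTop (1 : ℝ)] with L h3 h4
    have hL : 0 < L := by linarith
    rw [← sub_eq_add_neg] at h3
    rw [Real.div_rpow (by linarith) hL.le, lt_div_iff₀ (by positivity)] at h3
    exact h3.le
  have e2' : ∀ᶠ L : ℝ in atTop, (L + 1) ^ t ≤ (1 + e / 2) * L ^ t := by
    filter_upwards [(hshift 1).eventually_lt_const (show 1 < 1 + e / 2 by linarith), eventually_gt_atTop (1 : ℝ)] with L h3 h4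
    have hL : 0 < L := by linarith
    rw [Real.div_rpow (by linarith) hL.le, div_lt_iff₀ (by positivity)] at h3
    exact h3.le
  have e3 : ∀ᶠ L : ℝ in atTop, c * L ^ 2 ≤ e * L ^ t := by
    filter_upwards [(tendsto_rpow_atTop (show 0 < t - 2 by linarith)).eventually_ge_atTop (c / e),
      eventually_gt_atTop (0 : ℝ)] with L h2 h3
    rw [div_le_iff₀ he] at h2
    have h5 : L ^ (t - 2) * L ^ 2 = L ^ t := by
      rw [← Real.rpow_natCast, ← Real.rpow_add h3]
      norm_num
    calc c * L ^ 2 ≤ L ^ (t - 2) * e * L ^ 2 := by gcongr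
      _ = e * (L ^ (t - 2) * L ^ 2) := by ring
      _ = _ := by rw [h5]
  have e4 : ∀ᶠ n : ℕ in atTop, 2 * (Real.log n) ^ t ≤ (n : ℝ) / 2 := by
    have h2 := (isLittleO_log_rpow_rpow_atTop t (show (0 : ℝ) < 1 by norm_num)).def
      (show (0 : ℝ) < 1 / 4 by norm_num)
    filter_upwards [tendsto_natCast_atTop_atTop.eventually h2, eventually_ge_atTop 1] with n h3 h4
    have h5 : (1 : ℝ) ≤ n := by exact_mod_cast h4
    rw [Real.rpow_one, Real.norm_of_nonneg (Real.rpow_nonneg (Real.log_nonneg h5) t),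
      Real.norm_of_nonneg (by linarith)] at h3
    linarith
  filter_upwards [e1, hlog.eventually e2, hlog.eventually e2', hlog.eventually e3, e4, hlog.eventually_ge_atTop 1,
    eventually_ge_atTop (2 * p₁ + 2)] with n g1 g2 g2' g3 g4 g5 g6
  set L := Real.log n with hL
  have hn2 : (2 : ℝ) ≤ n := by exact_mod_cast (by omega : 2 ≤ n)
  have hL0 : 0 < L := by linarith
  have hLt : 0 < L ^ t := by positivity
  have hw : (⌊c * L ^ 2⌋₊ : ℝ) ≤ e * L ^ t := (Nat.floor_le (by positivity)).trans g3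
  refine ⟨g5, hw, fun p hpw hpW => ?_⟩
  have hp1 : p₁ ≤ p := by
    by_contra hcon
    have := g1 p (by omega)
    omega
  obtain ⟨w1, w2⟩ := hp₁ p hp1
  have hp0 : (1 : ℝ) < p := by
    have h2 : 0 < p := by
      rcases Nat.eq_zero_or_pos p with h | h
      · exfalso
        rw [h] at w1
        simp only [Nat.cast_zero, Real.log_zero] at w1
        rw [Real.zero_rpow (by linarith), div_zero] at w1
        linarith
      · exact h
    have h3 : p ≠ 1 := by
      intro h
      rw [h] at w1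
      simp only [Nat.cast_one, Real.log_one] at w1
      rw [Real.zero_rpow (by linarith), div_zero] at w1
      linarith
    exact_mod_cast (by omega : 1 < p)
  have hlp : 0 < Real.log p := Real.log_pos hp0
  have hlt : 0 < (Real.log p) ^ t := by positivity
  rw [lt_div_iff₀ hlt] at w1
  rw [div_lt_iff₀ hlt] at w2
  have hpw' : (p : ℝ) ≤ n + ⌊c * L ^ 2⌋₊ := by exact_mod_cast hpw
  have hewt : e * L ^ t ≤ n / 2 := by
    have : e * L ^ t ≤ 1 * L ^ t := mul_le_mul_of_nonneg_right (by linarith) hLt.le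
    linarith
  have hp2n : (p : ℝ) ≤ 2 * n := by linarith
  have hlp2 : Real.log p ≤ L + 1 := by
    have h2 : Real.log p ≤ Real.log (2 * n) := Real.log_le_log (by linarith) hp2n
    rw [Real.log_mul (by norm_num) (by linarith)] at h2
    have := Real.log_two_lt_d9
    linarith
  have hWup : (W p : ℝ) ≤ (1 + 2 * e) * L ^ t := by
    have h3 : (Real.log p) ^ t ≤ (1 + e / 2) * L ^ t := (Real.rpow_le_rpow hlp.le hlp2 ht0.le).trans g2'
    calc (W p : ℝ) ≤ (1 + e / 2) * (Real.log p) ^ t := w2.le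
      _ ≤ (1 + e / 2) * ((1 + e / 2) * L ^ t) := mul_le_mul_of_nonneg_left h3 (by linarith)
      _ = ((1 + e / 2) * (1 + e / 2)) * L ^ t := by ring
      _ ≤ (1 + 2 * e) * L ^ t := by
          apply mul_le_mul_of_nonneg_right _ hLt.le
          nlinarith only [he, he1]
  have hpn2 : (n : ℝ) / 2 ≤ p := by
    have h2 : (n : ℝ) < p + W p := by exact_mod_cast hpW
    have h3 : (1 + 2 * e) * L ^ t ≤ 2 * L ^ t := mul_le_mul_of_nonneg_right (by linarith) hLt.le
    linarith
  have hl2 : L - 1 ≤ Real.log p := by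
    have h2 : Real.log ((n : ℝ) / 2) ≤ Real.log p := Real.log_le_log (by linarith) hpn2
    rw [Real.log_div (by linarith) (by norm_num)] at h2
    have := Real.log_two_lt_d9
    linarith
  refine ⟨?_, hpn2, hp2n, ?_, hWup⟩
  · rcases le_or_gt p n with h | h
    · have h2 : (n : ℝ) ≤ p + W p := by exact_mod_cast hpW.le
      have h3 : (Real.log p) ^ t ≤ L ^ t := by
        apply Real.rpow_le_rpow hlp.le _ ht0.le
        exact Real.log_le_log (by linarith) (by exact_mod_cast h)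
      have h4 : (W p : ℝ) ≤ (1 + e / 2) * L ^ t := w2.le.trans (mul_le_mul_of_nonneg_left h3 (by linarith))
      have h5 : (1 + e / 2) * L ^ t ≤ (1 + e) * L ^ t := mul_le_mul_of_nonneg_right (by linarith) hLt.le
      linarith
    · have h2 : (n : ℝ) ≤ p := by exact_mod_cast h.le
      have h3 : 0 ≤ (1 + e) * L ^ t := by positivity
      linarith
  · have h3 : (L - 1) ^ t ≤ (Real.log p) ^ t := Real.rpow_le_rpow (by linarith) hl2 ht0.le
    calc (1 - 2 * e) * L ^ t ≤ ((1 - e / 2) * (1 - e / 2)) * L ^ t := by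
          apply mul_le_mul_of_nonneg_right _ hLt.le
          nlinarith only [he, he1]
      _ = (1 - e / 2) * ((1 - e / 2) * L ^ t) := by ring
      _ ≤ (1 - e / 2) * (Real.log p) ^ t := mul_le_mul_of_nonneg_left (g2.trans h3) (by linarith)
      _ ≤ W p := w1.le

/-- the sieving level near `X` -/
theorem levels (Z : ℕ → ℕ) (θ β b : ℝ) (hθ : 0 < θ) (hθ1 : θ ≤ 1) (hθβ : θ < β) (hβb : β < b)
    (hZ : Tendsto (fun p : ℕ => Real.log (Z p) / Real.log (Real.log p)) atTop (𝓝 β)) :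
    ∀ᶠ X : ℝ in atTop, ∀ p : ℕ, X / 2 ≤ p → (p : ℝ) ≤ 6 * X →
      (⌊1 / 4 * (Real.log X) ^ θ⌋₊ ≤ Z p ∧ Z p ≤ ⌊(Real.log X) ^ b⌋₊) := by
  have hβ : 0 < β := by linarith
  set b' := (β + b) / 2 with hb'
  have hb'0 : 0 < b' := by rw [hb']; linarith
  have h1 := hZ.eventually (Ioo_mem_nhds hθβ (show β < b' by rw [hb']; linarith))
  obtain ⟨p₁, hp₁⟩ := eventually_atTop.1 h1
  have e1 : ∀ᶠ L : ℝ in atTop, 1 / 4 * L ^ θ ≤ (L - 1) ^ θ := by
    filter_upwards [eventually_ge_atTop (2 : ℝ), (tendsto_rpow_atTop hθ).eventually_ge_atTop 1] with L hL hL1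
    have h2 : (1 / 2 * L) ^ θ ≤ (L - 1) ^ θ := Real.rpow_le_rpow (by linarith) (by linarith) hθ.le
    rw [Real.mul_rpow (by norm_num) (by linarith)] at h2
    have h3 : (1 / 2 : ℝ) ^ (1 : ℝ) ≤ (1 / 2 : ℝ) ^ θ :=
      Real.rpow_le_rpow_of_exponent_ge (by norm_num) (by norm_num) hθ1
    rw [Real.rpow_one] at h3
    have h4 : 0 ≤ L ^ θ := by linarith
    nlinarith only [h2, h3, h4]
  have e2 : ∀ᶠ L : ℝ in atTop, (L + 5) ^ b' ≤ L ^ b := by
    filter_upwards [eventually_ge_atTop (5 : ℝ),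
      (tendsto_rpow_atTop (show 0 < b - b' by rw [hb']; linarith)).eventually_ge_atTop ((2 : ℝ) ^ b')] with L hL hL1
    calc (L + 5) ^ b' ≤ (2 * L) ^ b' := Real.rpow_le_rpow (by linarith) (by linarith) hb'0.le
      _ = 2 ^ b' * L ^ b' := Real.mul_rpow (by norm_num) (by linarith)
      _ ≤ L ^ (b - b') * L ^ b' := mul_le_mul_of_nonneg_right hL1 (Real.rpow_nonneg (by linarith) _)
      _ = L ^ b := by
          rw [← Real.rpow_add (by linarith)]
          congr 1
          ring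
  filter_upwards [Real.tendsto_log_atTop.eventually e1, Real.tendsto_log_atTop.eventually e2,
    Real.tendsto_log_atTop.eventually_ge_atTop 4, eventually_ge_atTop (2 * (p₁ : ℝ) + 2)] with X g1 g2 g3 g4 p hp1 hp2
  have hp₁0 : (0 : ℝ) ≤ p₁ := Nat.cast_nonneg _
  have hX0 : 0 < X := by linarith
  set L := Real.log X with hL
  have hpp : p₁ ≤ p := by
    have : (p₁ : ℝ) ≤ p := by linarith
    exact_mod_cast this
  obtain ⟨w1, w2⟩ := hp₁ p hpp
  have hp0 : (0 : ℝ) < p := by linarith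
  have hl1 : L - 1 ≤ Real.log p := by
    have h2 : Real.log (X / 2) ≤ Real.log p := Real.log_le_log (by linarith) hp1
    rw [Real.log_div hX0.ne' (by norm_num)] at h2
    have := Real.log_two_lt_d9
    linarith
  have hl2 : Real.log p ≤ L + 5 := by
    have h2 : Real.log p ≤ Real.log (6 * X) := Real.log_le_log hp0 hp2
    rw [Real.log_mul (by norm_num) hX0.ne'] at h2
    have := Real.log_le_sub_one_of_pos (show (0 : ℝ) < 6 by norm_num)
    linarith
  have hlp : 0 < Real.log p := by linarith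
  have hll : 0 < Real.log (Real.log p) := Real.log_pos (by linarith)
  rw [lt_div_iff₀ hll] at w1
  rw [div_lt_iff₀ hll] at w2
  have hZ0 : (0 : ℝ) < Z p := by
    rcases Nat.eq_zero_or_pos (Z p) with h | h
    · exfalso
      rw [h] at w1
      simp only [Nat.cast_zero, Real.log_zero] at w1
      have : 0 < θ * Real.log (Real.log p) := by positivity
      linarith
    · exact_mod_cast h
  constructor
  · have h2 : (Real.log p) ^ θ ≤ Z p := by
      rw [← Real.log_le_log_iff (by positivity) hZ0, Real.log_rpow hlp]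
      exact w1.le
    have h3 : (L - 1) ^ θ ≤ (Real.log p) ^ θ := Real.rpow_le_rpow (by linarith) hl1 hθ.le
    have h4 : ((⌊1 / 4 * L ^ θ⌋₊ : ℕ) : ℝ) ≤ 1 / 4 * L ^ θ := Nat.floor_le (by
      have : 0 < L := by linarith
      positivity)
    have h5 : ((⌊1 / 4 * L ^ θ⌋₊ : ℕ) : ℝ) ≤ Z p := by linarith
    exact_mod_cast h5
  · apply Nat.le_floor
    have h2 : (Z p : ℝ) ≤ (Real.log p) ^ b' := by
      rw [← Real.log_le_log_iff hZ0 (by positivity), Real.log_rpow hlp]
      exact w2.le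
    have h3 : (Real.log p) ^ b' ≤ (L + 5) ^ b' := Real.rpow_le_rpow hlp.le hl2 hb'0.le
    linarith

end Pool.Agent.R526.SP
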