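import Pool.Agent.R526.SP.Low
import Pool.Agent.R526.LM.Fin

set_option autoImplicit false

/-! # Gaps between primes moved by sieve-preserving moves -/

namespace Pool.Agent.R526.SP

open MeasureTheory ProbabilityTheory Filter Finset Topology Pool.Agent.R526.TP Pool.Agent.R526.RS
open Pool.Agent.R529.BU (ww ww_pos om om_ge)
open Pool.Agent.R526.LM (cov)

open scoped Classical

variable {Ω : Type} [MeasurableSpace Ω] (μ : Measure Ω) [IsProbabilityMeasure μ] {ξ : ℕ → Ω → ℕ}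

/-- no good window is avoided -/
def Bad (ξ : ℕ → Ω → ℕ) (Z W : ℕ → ℕ) (ρ : ℝ) (p₀ : ℕ) (u b c t e C η : ℝ) (k : ℕ) : Set Ω :=
  ⋂ n ∈ SG Z W ρ u b c t e C (((2 : ℝ) ^ k) ^ (1 - η)) (2 ^ k),
    (Av ξ (FF p₀ k) (Ioc n (n + ⌊c * (Real.log n) ^ 2⌋₊)))ᶜ

theorem bad_prob (hξ : ∀ p, Measurable (ξ p)) (hind : iIndepFun ξ μ) (t : ℝ) (ht : 2 < t)
    (Z W : ℕ → ℕ) (hW : Tendsto (fun p : ℕ => (W p : ℝ) / (Real.log p) ^ t) atTop (𝓝 1)) (β : ℝ)
    (hZ : Tendsto (fun p : ℕ => Real.log (Z p) / Real.log (Real.log p)) atTop (𝓝 β)) (δ : ℝ) (hδ0 : 0 < δ)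
    (hδ1 : δ ≤ 1) (p₀ : ℕ)
    (hlaw : ∀ p, p.Prime → p₀ ≤ p → Law2 μ (ξ p) p (Ph Z W p) δ)
    (hβ : 0 < β) (hβ1 : β ≤ 1)
    (c η e ρ : ℝ) (hc0 : 0 < c) (he : 0 < e) (he1 : e ≤ 1 / 10) (hη : 0 < η) (hη1 : η < 1 / 3) (hρ0 : 0 < ρ)
    (hρ : c * om (2 / β) < ρ * om (t / β))
    (hcost : (-Real.log δ + 10 * e) * (c * ww 2 β) + (δ * ρ * (1 + 10 * e)) * ((1 + e) * ww t β) < 1 - 3 * η) :
    ∀ᶠ k : ℕ in atTop, μ.real (Bad ξ Z W ρ p₀ (-Real.log δ + 10 * e) (δ * ρ * (1 + 10 * e)) c t e (1 - 3 * η) η k) ≤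
      ((2 : ℝ) ^ (-η)) ^ k := by
  have e1 : ∀ᶠ k : ℕ in atTop, (2 * (c * (k : ℝ) ^ 2) + 1) ≤ 1 / 2 * ((2 : ℝ) ^ k) ^ η := by
    have hr : (1 : ℝ) < (2 : ℝ) ^ η := Real.one_lt_rpow (by norm_num) hη
    have h1 := (tendsto_pow_const_div_const_pow_of_one_lt 2 hr).eventually_le_const
      (show (0 : ℝ) < 1 / (8 * (c + 1)) by positivity)
    have h2 := (tendsto_pow_atTop_atTop_of_one_lt hr).eventually_ge_atTop 8
    filter_upwards [h1, h2] with k h1 h2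
    rw [div_le_iff₀ (by positivity)] at h1
    have h3 : ((2 : ℝ) ^ k) ^ η = ((2 : ℝ) ^ η) ^ k := by
      rw [← Real.rpow_natCast, ← Real.rpow_natCast, ← Real.rpow_mul (by norm_num), ← Real.rpow_mul (by norm_num), mul_comm]
    rw [h3]
    set z := ((2 : ℝ) ^ η) ^ k with hz
    have h4 : (c + 1) * (k : ℝ) ^ 2 ≤ z / 8 := by
      rw [one_div, inv_mul_eq_div, le_div_iff₀ (by positivity)] at h1
      linarith
    nlinarith [sq_nonneg (k : ℝ)]
  have hlogδ : Real.log δ ≤ 0 := Real.log_nonpos hδ0.le hδ1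
  set u : ℝ := -Real.log δ + 10 * e with hu
  set b : ℝ := δ * ρ * (1 + 10 * e) with hb
  have hu0 : 0 < u := by rw [hu]; linarith
  have hb0 : 0 < b := by positivity
  obtain ⟨n₀, hn₀⟩ := eventually_atTop.1
    (one_low μ hξ hind t ht Z W hW δ hδ0 hδ1 p₀ hlaw c e ρ hc0 he he1 hρ0)
  have ht1 : Tendsto (fun k : ℕ => ((2 : ℝ) ^ k) ^ (1 - η) / 2) atTop atTop := by
    apply Tendsto.atTop_div_const (by norm_num)
    exact (tendsto_rpow_atTop (by linarith)).comp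
      (tendsto_pow_atTop_atTop_of_one_lt (by norm_num : (1 : ℝ) < 2))
  filter_upwards [good_many Z W ρ u b c t e (1 - 3 * η) β η hu0 hb0 hc0 ht he hβ hβ1 hη hW hZ hcost hρ,
    e1, eventually_ge_atTop 1, ht1.eventually_ge_atTop (n₀ : ℝ)]
    with k hk h1 hk1 hkn
  set x : ℝ := (2 : ℝ) ^ k with hx
  have hx1 : 1 ≤ x := one_le_pow₀ (by norm_num)
  have hx0 : 0 < x := by linarith
  set y := x ^ (1 - η) with hy
  set S := SG Z W ρ u b c t e (1 - 3 * η) y (2 ^ k) with hS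
  set B : ℕ → Set Ω := fun n => Av ξ (FF p₀ k) (Ioc n (n + ⌊c * (Real.log n) ^ 2⌋₊)) with hB
  set V : ℕ := ⌊c * (Real.log x) ^ 2⌋₊ with hV
  have hlogx : Real.log x = k * Real.log 2 := by rw [hx, Real.log_pow]
  have hSx : ∀ n ∈ S, 1 ≤ n ∧ (n : ℝ) ≤ x := by
    intro n hn
    rw [hS, mem_SG] at hn
    refine ⟨hn.1.1, ?_⟩
    have : (n : ℝ) ≤ ((2 ^ k : ℕ) : ℝ) := by exact_mod_cast hn.1.2
    push_cast at this
    exact this
  have hlogn : ∀ n ∈ S, 0 ≤ Real.log n ∧ Real.log n ≤ Real.log x := by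
    intro n hn
    obtain ⟨a1, a2⟩ := hSx n hn
    have a3 : (1 : ℝ) ≤ n := by exact_mod_cast a1
    exact ⟨Real.log_nonneg a3, Real.log_le_log (by linarith) a2⟩
  have hwV : ∀ n ∈ S, ⌊c * (Real.log n) ^ 2⌋₊ ≤ V := by
    intro n hn
    obtain ⟨a1, a2⟩ := hlogn n hn
    apply Nat.floor_le_floor
    gcongr
  have hsec := second_le μ B (fun n => Av_meas hξ _ _) S V (by
    intro n hn m hm hnm
    apply Av_neg μ hξ hind
    rw [disjoint_left]
    intro p hp hp'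
    rw [mem_Ioc] at hp hp'
    have := hwV n hn
    omega) (∑ n ∈ S, μ.real (B n)) rfl
  set E := ∑ n ∈ S, μ.real (B n) with hE
  have hEn : ∀ n ∈ S, x ^ (-(1 - 3 * η)) ≤ μ.real (B n) := by
    intro n hn
    obtain ⟨a1, a2⟩ := hlogn n hn
    have hn' := hn
    rw [hS, mem_SG] at hn'
    have hnn : n₀ ≤ n := by
      have : (n₀ : ℝ) ≤ n := hkn.trans hn'.2.1.le
      exact_mod_cast this
    have b1 := hn₀ n hnn hn'.2.2.2 (FF p₀ k) (by
      intro p hp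
      unfold FF at hp
      exact (mem_filter.1 hp).2)
    refine le_trans ?_ b1
    rw [Real.rpow_def_of_pos hx0]
    apply Real.exp_le_exp.2
    have b2 := hn'.2.2.1
    have b3 : (1 - 3 * η) * Real.log n ≤ (1 - 3 * η) * Real.log x :=
      mul_le_mul_of_nonneg_left a2 (by linarith)
    linarith
  have hElow : x ^ (2 * η) / 2 ≤ E := by
    have b1 : (S.card : ℝ) * x ^ (-(1 - 3 * η)) ≤ E := by
      rw [hE, ← nsmul_eq_mul, ← sum_const]
      exact sum_le_sum hEn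
    refine le_trans ?_ b1
    calc x ^ (2 * η) / 2 = y / 2 * x ^ (-(1 - 3 * η)) := by
          rw [hy, div_mul_eq_mul_div, ← Real.rpow_add hx0]
          congr 2
          ring
      _ ≤ S.card * x ^ (-(1 - 3 * η)) := by
          apply mul_le_mul_of_nonneg_right hk
          positivity
  have hE0 : 0 < E := lt_of_lt_of_le (by positivity) hElow
  set q := μ.real (Bad ξ Z W ρ p₀ u b c t e (1 - 3 * η) η k) with hq
  have hb1 : q * E ≤ 2 * V + 1 := by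
    have b1 : q * E ^ 2 ≤ (2 * V + 1) * E := hsec
    have b2 : q * E * E ≤ (2 * V + 1) * E := by nlinarith
    exact le_of_mul_le_mul_right b2 hE0
  have hVle : (V : ℝ) ≤ c * (k : ℝ) ^ 2 := by
    have b1 : (V : ℝ) ≤ c * (Real.log x) ^ 2 := Nat.floor_le (by positivity)
    refine b1.trans ?_
    rw [hlogx]
    have b2 : Real.log 2 ≤ 1 := by
      have := Real.log_two_lt_d9
      linarith
    have b3 : (k : ℝ) * Real.log 2 ≤ k := by
      have : (0 : ℝ) ≤ k := Nat.cast_nonneg k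
      nlinarith
    have b4 : 0 ≤ (k : ℝ) * Real.log 2 := by positivity
    gcongr
  have hpow : ((2 : ℝ) ^ (-η)) ^ k = x ^ (-η) := by
    rw [hx, ← Real.rpow_natCast, ← Real.rpow_natCast, ← Real.rpow_mul (by norm_num), ← Real.rpow_mul (by norm_num), mul_comm]
  rw [hpow]
  have hfin : q * (x ^ (2 * η) / 2) ≤ 1 / 2 * x ^ η := by
    calc q * (x ^ (2 * η) / 2) ≤ q * E :=
          mul_le_mul_of_nonneg_left hElow measureReal_nonneg
      _ ≤ 2 * V + 1 := hb1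
      _ ≤ 2 * (c * (k : ℝ) ^ 2) + 1 := by linarith
      _ ≤ 1 / 2 * x ^ η := h1
  have hx2 : x ^ (2 * η) = x ^ η * x ^ η := by rw [← Real.rpow_add hx0]; congr 1; ring
  have hxn : x ^ (-η) = (x ^ η)⁻¹ := Real.rpow_neg hx0.le η
  have hxp : 0 < x ^ η := by positivity
  rw [hxn, ← one_div, le_div_iff₀ hxp]
  rw [hx2] at hfin
  have : q * x ^ η * (x ^ η / 2) ≤ 1 * (x ^ η / 2) := by nlinarith
  exact le_of_mul_le_mul_right this (by positivity)

/-- choice of the parameters -/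
theorem params (a D ε lδ δ : ℝ) (ha : 0 < a) (hδ : 0 < δ) (hlδ : 0 ≤ lδ) (hD : D = (lδ + δ) * a)
    (hε : 0 < ε) (hε1 : ε < 1 / D) :
    ∃ s c : ℝ, 0 < s ∧ s < 1 / 10 ∧ 0 < c ∧
      (lδ + 10 * s) * (c * a) + δ * (1 + s) * (1 + 10 * s) * (1 + s) * (c * a) < 1 - 3 * s ∧
      1 / D - ε ≤ c * (1 - 2 * s) ^ 2 := by
  have hD0 : 0 < D := by rw [hD]; positivity
  set c : ℝ := 1 / D - ε / 2 with hc
  have hc0 : 0 < c := by rw [hc]; linarith
  have hval : c * D < 1 := by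
    rw [hc, sub_mul, div_mul_cancel₀ _ hD0.ne']
    have : 0 < ε / 2 * D := by positivity
    linarith
  have hcont1 : ContinuousAt (fun s : ℝ => (lδ + 10 * s) * (c * a) +
      δ * (1 + s) * (1 + 10 * s) * (1 + s) * (c * a) + 3 * s) 0 := by fun_prop
  have hcont2 : ContinuousAt (fun s : ℝ => c * (1 - 2 * s) ^ 2) 0 := by fun_prop
  have e1 : ∀ᶠ s : ℝ in 𝓝 0, (lδ + 10 * s) * (c * a) +
      δ * (1 + s) * (1 + 10 * s) * (1 + s) * (c * a) + 3 * s < 1 := by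
    apply hcont1.eventually_lt continuousAt_const
    have : (lδ + 10 * 0) * (c * a) + δ * (1 + 0) * (1 + 10 * 0) * (1 + 0) * (c * a) + 3 * 0 = c * D := by
      rw [hD]
      ring
    rw [this]
    exact hval
  have e2 : ∀ᶠ s : ℝ in 𝓝 0, 1 / D - ε < c * (1 - 2 * s) ^ 2 := by
    apply continuousAt_const.eventually_lt hcont2
    have : c * (1 - 2 * 0) ^ 2 = c := by ring
    rw [this, hc]
    linarith
  obtain ⟨s, hs0, hs1, g1, g2⟩ := pick _ (e1.and e2) (1 / 10) (by norm_num)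
  exact ⟨s, c, hs0, hs1, hc0, by linarith, g2.le⟩

theorem moved_eps (hξ : ∀ p, Measurable (ξ p)) (hind : iIndepFun ξ μ) (t : ℝ) (ht : 2 < t)
    (Z W : ℕ → ℕ) (hW : Tendsto (fun p : ℕ => (W p : ℝ) / (Real.log p) ^ t) atTop (𝓝 1)) (β : ℝ)
    (hZ : Tendsto (fun p : ℕ => Real.log (Z p) / Real.log (Real.log p)) atTop (𝓝 β)) (δ : ℝ) (hδ0 : 0 < δ)
    (hδ1 : δ ≤ 1) (p₀ : ℕ)
    (hlaw : ∀ p, p.Prime → p₀ ≤ p → Law2 μ (ξ p) p (Ph Z W p) δ)
    (hβ : 0 < β) (hβ1 : β ≤ 1) (ε : ℝ) (hε : 0 < ε) :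
    ∀ᵐ ω ∂μ, ∀ᶠ x : ℝ in atTop, ∃ a b : ℕ, (∃ p : ℕ, p.Prime ∧ ξ p ω = a) ∧
      (∃ p : ℕ, p.Prime ∧ ξ p ω = b) ∧ a < b ∧ (b : ℝ) ≤ x ∧
      (∀ m : ℕ, (∃ p : ℕ, p.Prime ∧ ξ p ω = m) → ¬ (a < m ∧ m < b)) ∧
      (1 / ((-Real.log δ + δ) * ww 2 β) - ε) * (Real.log x) ^ 2 ≤ (b : ℝ) - a := by
  have hw2 : 0 < ww 2 β := ww_pos 2 β hβ (by linarith)
  have hwt : 0 < ww t β := ww_pos t β hβ (by linarith)
  have hlδ : 0 ≤ -Real.log δ := by
    have : Real.log δ ≤ 0 := Real.log_nonpos hδ0.le hδ1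
    linarith
  set D : ℝ := (-Real.log δ + δ) * ww 2 β with hD
  have hD0 : 0 < D := by positivity
  set ε' : ℝ := min ε (1 / D / 2) with hε'
  have hD1 : 0 < 1 / D := by positivity
  have hε'0 : 0 < ε' := lt_min hε (by linarith)
  have hε'1 : ε' < 1 / D := (min_le_right _ _).trans_lt (by linarith)
  obtain ⟨s, c, hs0, hs1, hc0, hp1, hp2⟩ := params (ww 2 β) D ε' (-Real.log δ) δ hw2 hδ0 hlδ hD hε'0 hε'1
  have ho2 : 0 < om (2 / β) := by
    have := om_ge (2 / β) (by rw [le_div_iff₀ hβ]; linarith)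
    linarith
  have hot : 0 < om (t / β) := by
    have := om_ge (t / β) (by rw [le_div_iff₀ hβ]; linarith)
    linarith
  set ρ : ℝ := (1 + s) * (c * om (2 / β) / om (t / β)) with hρ
  have hρ0 : 0 < ρ := by positivity
  have hρ1 : c * om (2 / β) < ρ * om (t / β) := by
    have h1 : ρ * om (t / β) = (1 + s) * (c * om (2 / β)) := by
      rw [hρ]
      field_simp
    rw [h1]
    have : 0 < s * (c * om (2 / β)) := by positivity
    linarith
  have hρ2 : ρ * ww t β = (1 + s) * (c * ww 2 β) := by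
    rw [hρ]
    unfold ww
    field_simp
  have hbad := bad_prob μ hξ hind t ht Z W hW β hZ δ hδ0 hδ1 p₀ hlaw hβ hβ1 c s s ρ hc0
    hs0 hs1.le hs0 (by linarith) hρ0 hρ1 (by
      have h1 : (δ * ρ * (1 + 10 * s)) * ((1 + s) * ww t β) = δ * (1 + s) * (1 + 10 * s) * (1 + s) * (c * ww 2 β) := by
        calc (δ * ρ * (1 + 10 * s)) * ((1 + s) * ww t β) = δ * (1 + 10 * s) * (1 + s) * (ρ * ww t β) := by ring
          _ = _ := by rw [hρ2]; ring
      rw [h1]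
      exact hp1)
  have hae1 := bc μ (Bad ξ Z W ρ p₀ (-Real.log δ + 10 * s) (δ * ρ * (1 + 10 * s)) c t s (1 - 3 * s) s)
    ((2 : ℝ) ^ (-s)) (by positivity)
    (Real.rpow_lt_one_of_one_lt_of_neg (by norm_num) (by linarith)) hbad
  have hae3 : ∀ᵐ ω ∂μ, ∀ p : ℕ, p.Prime → p₀ ≤ p → p ≤ ξ p ω ∧ ξ p ω ≤ p + W p := by
    rw [ae_all_iff]
    intro p
    by_cases hp : p.Prime ∧ p₀ ≤ p
    · filter_upwards [(hlaw p hp.1 hp.2).1] with ω hω _ _
      rcases hω with h1 | h1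
      · omega
      · rw [mem_Ph] at h1
        omega
    · filter_upwards with ω h1 h2
      exact absurd ⟨h1, h2⟩ hp
  have hsmall : ∀ᶠ k : ℕ in atTop, c * (Real.log ((2 : ℝ) ^ k)) ^ 2 ≤ (2 : ℝ) ^ k := by
    have hpow : Tendsto (fun k : ℕ => ((2 : ℝ) ^ k)) atTop atTop :=
      tendsto_pow_atTop_atTop_of_one_lt (by norm_num : (1 : ℝ) < 2)
    have h1 := (Real.isLittleO_pow_log_id_atTop (n := 2)).bound (show (0 : ℝ) < 1 / c by positivity)
    filter_upwards [hpow.eventually h1, hpow.eventually_ge_atTop 1] with k h2 h3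
    rw [Real.norm_of_nonneg (pow_nonneg (Real.log_nonneg h3) 2), id,
      Real.norm_of_nonneg (by linarith)] at h2
    have h4 : c * (Real.log ((2 : ℝ) ^ k)) ^ 2 ≤ c * (1 / c * (2 : ℝ) ^ k) :=
      mul_le_mul_of_nonneg_left h2 hc0.le
    refine h4.trans (le_of_eq ?_)
    field_simp
  filter_upwards [hae1, hae3] with ω hω1 hω3
  have hcov2 := cov t ht W hW p₀ (fun p => ξ p ω) hω3
  have hgap := gap_of (fun m => ∃ p : ℕ, p.Prime ∧ ξ p ω = m) c s (1 / D - ε) hc0 hs0 (by linarith)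
    (by
      have : ε' ≤ ε := min_le_left _ _
      linarith) (by
      set B : ℕ := ∑ p ∈ range p₀, ξ p ω with hB
      have htt : Tendsto (fun k : ℕ => ((2 : ℝ) ^ k) ^ (1 - s) / 2) atTop atTop := by
        apply Tendsto.atTop_div_const (by norm_num)
        exact (tendsto_rpow_atTop (by linarith)).comp
          (tendsto_pow_atTop_atTop_of_one_lt (by norm_num : (1 : ℝ) < 2))
      filter_upwards [hω1, htt.eventually_ge_atTop (B : ℝ), hsmall] with k hk hkB hks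
      unfold Bad at hk
      simp only [Set.mem_iInter, Set.mem_compl_iff, not_forall, not_not] at hk
      obtain ⟨n, hn, hd⟩ := hk
      rw [mem_Av] at hd
      rw [mem_SG] at hn
      refine ⟨n, hn.1.1, hn.1.2, hn.2.1, ?_⟩
      rintro m hm1 hm2 ⟨p, hp1, hp2⟩
      have hn1r : (1 : ℝ) ≤ n := by exact_mod_cast hn.1.1
      have hnr : (n : ℝ) ≤ (2 : ℝ) ^ k := by
        have : (n : ℝ) ≤ ((2 ^ k : ℕ) : ℝ) := by exact_mod_cast hn.1.2
        push_cast at this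
        exact this
      have hw : ⌊c * (Real.log n) ^ 2⌋₊ ≤ 2 ^ k := by
        have h1 : (⌊c * (Real.log n) ^ 2⌋₊ : ℝ) ≤ c * (Real.log n) ^ 2 := Nat.floor_le (by positivity)
        have h2 : c * (Real.log n) ^ 2 ≤ c * (Real.log ((2 : ℝ) ^ k)) ^ 2 := by
          have h3 : 0 ≤ Real.log n := Real.log_nonneg hn1r
          have h4 : Real.log n ≤ Real.log ((2 : ℝ) ^ k) := Real.log_le_log (by linarith) hnr
          gcongr
        have h3 : (⌊c * (Real.log n) ^ 2⌋₊ : ℝ) ≤ ((2 ^ k : ℕ) : ℝ) := by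
          push_cast
          linarith
        exact_mod_cast h3
      have hpow2 : 2 ^ (k + 1) = 2 ^ k + 2 ^ k := by ring
      rcases Nat.lt_or_ge p p₀ with h | h
      · have h1 : ξ p ω ≤ B := by
          rw [hB]
          exact single_le_sum (f := fun p => ξ p ω) (fun i _ => Nat.zero_le _) (mem_range.2 h)
        have h2 : (B : ℝ) < n := lt_of_le_of_lt hkB hn.2.1
        have h3 : B < n := by exact_mod_cast h2
        omega
      · have h1 := (hω3 p hp1 h).1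
        have h2 : p ∈ FF p₀ k := by
          unfold FF
          rw [mem_filter, mem_Icc]
          exact ⟨⟨hp1.one_lt.le, by omega⟩, hp1, h⟩
        have h3 := hd p h2
        rw [hp2, mem_Ioc] at h3
        exact h3 ⟨hm1, hm2⟩) hcov2
  filter_upwards [hgap] with x hx1
  obtain ⟨a, b, h1, h2, h3, h4, h5, h6⟩ := hx1
  exact ⟨a, b, h1, h2, h3, h4, h5, h6⟩


end Pool.Agent.R526.SP
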