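import Pool.Agent.R526.LM.Side

/-! # A uniform lower bound for the number of integers without small prime factors -/

set_option autoImplicit false

open Finset Filter Topology
open Pool.Agent.H510R2.Maier Pool.Agent.H510R2.Maier.G
open Pool.Agent.H378R2 hiding WW DD
open Pool.Agent.R529.LD (DD floor_eq DD_ev tendsto_z')
open Pool.Agent.R529.BU

namespace Pool.Agent.R526.SP

theorem quot (K t θ : ℝ) (hK : 0 < K) (hθ : 0 < θ) :
    Tendsto (fun L : ℝ => Real.log (K * L ^ t) / Real.log (⌊1 / 4 * L ^ θ⌋₊ : ℕ)) atTop (𝓝 (t / θ)) := by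
  have h1 : Tendsto (fun L : ℝ => Real.log (K * L ^ t) / Real.log L) atTop (𝓝 t) := by
    have h2 : Tendsto (fun L : ℝ => Real.log K * (Real.log L)⁻¹ + t) atTop (𝓝 (Real.log K * 0 + t)) :=
      (Real.tendsto_log_atTop.inv_tendsto_atTop.const_mul _).add_const t
    rw [mul_zero, zero_add] at h2
    refine h2.congr' ?_
    filter_upwards [eventually_gt_atTop (1 : ℝ)] with L hL
    have hl := Real.log_pos hL
    have hL0 : 0 < L := by linarith
    rw [Real.log_mul hK.ne' (by positivity), Real.log_rpow hL0]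
    field_simp
  have h2 := h1.div (tlogfloor (1 / 4) θ (by norm_num) hθ) hθ.ne'
  refine h2.congr' ?_
  filter_upwards [eventually_gt_atTop (1 : ℝ)] with L hL
  have := Real.log_pos hL
  simp only [Pi.div_apply]
  field_simp

theorem RR_unif (t θ e₁ δ : ℝ) (hθ : 0 < θ) (hθt : θ < t) (he₁ : 0 < e₁) (hδ : 0 < δ) :
    ∀ᶠ L : ℝ in atTop, ∀ x : ℕ, e₁ * L ^ t ≤ x → (x : ℝ) ≤ 2 * L ^ t →
      (om (t / θ) / θ - δ) * (x / Real.log L) ≤ ((RR (x : ℝ) (⌊1 / 4 * L ^ θ⌋₊ : ℕ)).card : ℝ) := by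
  have ht : 0 < t := by linarith
  have hu1 : 1 < t / θ := by rw [lt_div_iff₀ hθ]; linarith
  obtain ⟨n, hn⟩ := exists_nat_gt (max 2 (t / θ))
  have hn1 : t / θ < n := (le_max_right _ _).trans_lt hn
  have hn2 : 2 ≤ n := by
    have : (2 : ℝ) < n := (le_max_left _ _).trans_lt hn
    have : (2 : ℕ) < n := by exact_mod_cast this
    omega
  set η : ℝ := (t / θ - 1) / 2 with hη
  have hη0 : 0 < η := by rw [hη]; linarith
  set v := om (t / θ) with hv
  have hv0 : 1 / 2 ≤ v := om_ge (t / θ) hu1.le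
  set δ₂ : ℝ := min (1 / 4) (δ * θ / 4) with hδ₂
  have hδ₂0 : 0 < δ₂ := by positivity
  have hδ₂1 : δ₂ ≤ 1 / 4 := min_le_left _ _
  have hδ₂2 : δ₂ ≤ δ * θ / 4 := min_le_right _ _
  have hcont := om_cont.tendsto (t / θ)
  have hnb := hcont.eventually_const_lt (show v - δ₂ < om (t / θ) by rw [← hv]; linarith)
  obtain ⟨ρ, hρ, hball⟩ := Metric.eventually_nhds_iff.1 hnb
  set ρ' : ℝ := min ρ (min η (n - t / θ)) with hρ'
  have hρ'0 : 0 < ρ' := lt_min hρ (lt_min hη0 (by linarith))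
  set δ' : ℝ := δ * t / 4 with hδ'
  have hδ'0 : 0 < δ' := by positivity
  obtain ⟨z0, hz0⟩ := QA_all n hn2 η δ' hη0 hδ'0
  have hlogz := tlogfloor (1 / 4) θ (by norm_num) hθ
  have e0 : ∀ᶠ L : ℝ in atTop, z0 ≤ ((⌊1 / 4 * L ^ θ⌋₊ : ℕ) : ℝ) := by
    filter_upwards [(tendsto_z' θ hθ).eventually_ge_atTop ⌈z0⌉₊] with L hL
    exact (Nat.le_ceil z0).trans (by exact_mod_cast hL)
  have q1 := (quot e₁ t θ he₁ hθ).eventually_const_lt (show t / θ - ρ' < t / θ by linarith)
  have q2 := (quot 2 t θ (by norm_num) hθ).eventually_lt_const (show t / θ < t / θ + ρ' by linarith)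
  have hr : Tendsto (fun L : ℝ => (v - δ₂) * (Real.log (⌊1 / 4 * L ^ θ⌋₊ : ℕ) / Real.log L)⁻¹) atTop (𝓝 ((v - δ₂) * θ⁻¹)) :=
    (hlogz.inv₀ hθ.ne').const_mul _
  have hr1 : v / θ - δ / 2 < (v - δ₂) * θ⁻¹ := by
    rw [← div_eq_mul_inv, sub_div]
    have : δ₂ / θ ≤ δ / 4 := by
      rw [div_le_iff₀ hθ]
      linarith
    linarith
  filter_upwards [q1, q2, e0, hr.eventually_const_lt hr1, (tendsto_z' θ hθ).eventually_ge_atTop 2,
    eventually_gt_atTop (1 : ℝ), (tendsto_rpow_atTop (show 0 < t / 2 by positivity)).eventually_ge_atTop (e₁⁻¹),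
    (tendsto_rpow_atTop ht).eventually_ge_atTop (2 / e₁)]
    with L g1 g2 g3 g4 g5 g6 g7 g8 x hx1 hx2
  have hL0 : 0 < L := by linarith
  have hl := Real.log_pos g6
  have hLt : 0 < L ^ t := by positivity
  have hx0 : (0 : ℝ) < x := lt_of_lt_of_le (by positivity) hx1
  set z := ⌊1 / 4 * L ^ θ⌋₊ with hz
  have hz2 : (2 : ℝ) ≤ z := by exact_mod_cast g5
  have hlz : 0 < Real.log z := Real.log_pos (by linarith)
  have hlx1 : Real.log (e₁ * L ^ t) ≤ Real.log x := Real.log_le_log (by positivity) hx1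
  have hlx2 : Real.log x ≤ Real.log (2 * L ^ t) := Real.log_le_log hx0 hx2
  set u : ℝ := Real.log x / Real.log z with hu
  have hu2 : t / θ - ρ' < u := g1.trans_le (div_le_div_of_nonneg_right hlx1 hlz.le)
  have hu3 : u < t / θ + ρ' := (div_le_div_of_nonneg_right hlx2 hlz.le).trans_lt g2
  have hρa : ρ' ≤ ρ := min_le_left _ _
  have hρb : ρ' ≤ η := (min_le_right _ _).trans (min_le_left _ _)
  have hρc : ρ' ≤ n - t / θ := (min_le_right _ _).trans (min_le_right _ _)
  have hux : Real.log x = u * Real.log z := by rw [hu]; field_simp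
  have hu4 : 1 + η < u := by
    have : t / θ = 1 + 2 * η := by rw [hη]; ring
    linarith
  have hu5 : u < n := by linarith
  have hu0 : 0 < u := by linarith
  have hlx0 : 0 < Real.log x := by rw [hux]; positivity
  have h1 := hz0 z g3 x (by
    rw [← Real.log_le_log_iff (by positivity) hx0, Real.log_rpow (by linarith), hux]
    exact mul_le_mul_of_nonneg_right hu4.le hlz.le) (by
    rw [← Real.log_le_log_iff hx0 (by positivity), Real.log_rpow (by linarith), hux]
    exact mul_le_mul_of_nonneg_right hu5.le hlz.le)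
  rw [← hu] at h1
  obtain ⟨h2, -⟩ := abs_le.1 h1
  have h3 : v - δ₂ < om u := by
    apply hball
    rw [Real.dist_eq, abs_lt]
    constructor <;> linarith
  -- the lower bound of `log x`
  have h4 : t / 2 * Real.log L ≤ Real.log x := by
    refine le_trans ?_ hlx1
    rw [← Real.log_rpow hL0]
    apply Real.log_le_log (by positivity)
    have h5 : L ^ t = L ^ (t / 2) * L ^ (t / 2) := by
      rw [← Real.rpow_add hL0]; congr 1; ring
    rw [h5]
    have h6 : e₁⁻¹ * L ^ (t / 2) ≤ L ^ (t / 2) * L ^ (t / 2) := mul_le_mul_of_nonneg_right g7 (by positivity)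
    calc L ^ (t / 2) = e₁ * (e₁⁻¹ * L ^ (t / 2)) := by field_simp
      _ ≤ e₁ * (L ^ (t / 2) * L ^ (t / 2)) := mul_le_mul_of_nonneg_left h6 he₁.le
  rw [← mul_div_assoc, div_le_iff₀ hl]
  set C := ((RR (x : ℝ) (z : ℝ)).card : ℝ) with hC
  have h5 : x * (WW u) - δ' * x ≤ C * Real.log x := by linarith
  unfold WW at h5
  -- `C ≥ x (om u / log z - δ' / log x)`
  have h6 : x * (om u / Real.log z) - δ' * x / Real.log x ≤ C := by
    rw [← sub_nonneg]
    have : 0 ≤ (C * Real.log x - (x * (u * om u) - δ' * x)) / Real.log x := div_nonneg (by linarith) hlx0.le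
    have h7 : (C * Real.log x - (x * (u * om u) - δ' * x)) / Real.log x =
        C - (x * (om u / Real.log z) - δ' * x / Real.log x) := by
      rw [hux]
      field_simp
    rw [← h7]
    exact this
  have h7 : δ' * x / Real.log x * Real.log L ≤ δ / 2 * x := by
    rw [div_mul_eq_mul_div, div_le_iff₀ hlx0]
    calc δ' * x * Real.log L = δ / 2 * x * (t / 2 * Real.log L) := by rw [hδ']; ring
      _ ≤ δ / 2 * x * Real.log x := mul_le_mul_of_nonneg_left h4 (by positivity)
  have h8 : (v / θ - δ / 2) * x ≤ x * (om u / Real.log z) * Real.log L := by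
    have h9 : (v - δ₂) * (Real.log z / Real.log L)⁻¹ ≤ om u / Real.log z * Real.log L := by
      rw [inv_div]
      calc (v - δ₂) * (Real.log L / Real.log z) ≤ om u * (Real.log L / Real.log z) :=
            mul_le_mul_of_nonneg_right h3.le (by positivity)
        _ = _ := by ring
    calc (v / θ - δ / 2) * x ≤ (om u / Real.log z * Real.log L) * x :=
          mul_le_mul_of_nonneg_right (g4.le.trans h9) hx0.le
      _ = _ := by ring
  have h9 : (x * (om u / Real.log z) - δ' * x / Real.log x) * Real.log L ≤ C * Real.log L :=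
    mul_le_mul_of_nonneg_right h6 hl.le
  have h10 : (v / θ - δ) * x = (v / θ - δ / 2) * x - δ / 2 * x := by ring
  linarith

/-- the survivors, uniform lower bound -/
theorem V_low (t θ e₁ δ : ℝ) (hθ : 0 < θ) (hθ1 : θ < 1) (hθt : θ < t) (he₁ : 0 < e₁) (hδ : 0 < δ) :
    ∀ᶠ X : ℝ in atTop, ∀ (ps : ℕ) (S : Finset ℕ) (x : ℕ), e₁ * (Real.log X) ^ t ≤ x → (x : ℝ) ≤ 2 * (Real.log X) ^ t →
      (om (t / θ) / θ - δ) * (x / Real.log (Real.log X)) ≤
        (VV (WD X (DD θ (Real.log X)) S ps) 0 x : ℝ) := by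
  have ev := (RR_unif t θ e₁ δ hθ hθt he₁ hδ).and ((DD_ev θ hθ1).and (eventually_gt_atTop (1 : ℝ)))
  filter_upwards [Real.tendsto_log_atTop.eventually ev, eventually_ge_atTop (1 : ℝ)] with X hX hX1 ps S x hx1 hx2
  obtain ⟨c1, c4, c7⟩ := hX
  have hL0 : 0 < Real.log X := by linarith
  have hfl := floor_eq (θ := θ) hL0
  refine (c1 x hx1 hx2).trans ?_
  have := VV_ge (X := X) c4 hX1 S ps x ⌊1 / 4 * (Real.log X) ^ θ⌋₊ (by rw [hfl])
  exact_mod_cast this

end Pool.Agent.R526.SP
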