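import Pool.Agent.R526.SP.Cnt
import Pool.Agent.R526.SP.Unif
import Pool.Agent.R526.LM.Good

/-! # The rows are nice -/

set_option autoImplicit false

open Finset Filter Topology
open Pool.Agent.H510R2.Maier Pool.Agent.H510R2.Maier.G
open Pool.Agent.H378R2 hiding WW DD
open Pool.Agent.R529.LD (DD floor_eq DD_ev tendsto_z')
open Pool.Agent.R529.BU (om om_ge)
open Pool.Agent.R526.LM (ratio_lim VV_up)

namespace Pool.Agent.R526.SP

theorem VV_mono (W : ℕ) {x y : ℕ} (h : x ≤ y) : VV W 0 x ≤ VV W 0 y := by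
  unfold VV
  apply card_le_card
  intro m hm
  rw [mem_filter, mem_Icc] at hm ⊢
  exact ⟨⟨hm.1.1, hm.1.2.trans h⟩, hm.2⟩

theorem ev_shift (s a δ : ℝ) (hδ : 0 < δ) : ∀ᶠ L : ℝ in atTop, (L + a) ^ s ≤ (1 + δ) * L ^ s := by
  have h3 : Tendsto (fun L : ℝ => (L + a) / L) atTop (𝓝 1) := by
    have h4 : Tendsto (fun L : ℝ => 1 + a * L⁻¹) atTop (𝓝 (1 + a * 0)) := (tendsto_inv_atTop_zero.const_mul a).const_add 1
    rw [mul_zero, add_zero] at h4
    refine h4.congr' ?_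
    filter_upwards [eventually_gt_atTop (0 : ℝ)] with L hL
    field_simp
  have h5 : Tendsto (fun L : ℝ => ((L + a) / L) ^ s) atTop (𝓝 1) := by
    have := h3.rpow_const (p := s) (Or.inl one_ne_zero)
    rwa [Real.one_rpow] at this
  filter_upwards [h5.eventually_lt_const (show 1 < 1 + δ by linarith), eventually_gt_atTop (0 : ℝ), eventually_gt_atTop (-a)] with L h6 h7 h8
  rw [Real.div_rpow (by linarith) h7.le, div_lt_iff₀ (by positivity)] at h6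
  exact h6.le

/-- the lower bound for two pieces -/
theorem two_pieces (V : ℕ → ℝ) (hV0 : ∀ x, 0 ≤ V x) (a δ T ℓ : ℝ) (hδ : 0 < δ) (hδ1 : δ ≤ 1 / 20) (ha : 0 ≤ a)
    (hT : 1 ≤ δ * T) (hℓ : 0 < ℓ)
    (hlow : ∀ x : ℕ, δ * T ≤ x → (x : ℝ) ≤ 2 * T → a * (x / ℓ) ≤ V x) (x₁ x₂ N : ℕ) (h : N ≤ x₁ + x₂ + 1)
    (h1 : x₁ ≤ N) (h2 : x₂ ≤ N) (hN : (N : ℝ) ≤ 2 * T) (hN' : (1 - 2 * δ) * T ≤ N) :
    a * (1 - 4 * δ) * (T / ℓ) ≤ V x₁ + V x₂ := by
  have hT0 : 0 < T := by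
    by_contra hc
    have : δ * T ≤ 0 := mul_nonpos_of_nonneg_of_nonpos hδ.le (not_lt.1 hc)
    linarith
  have hr : (N : ℝ) ≤ x₁ + x₂ + 1 := by exact_mod_cast h
  have h1r : (x₁ : ℝ) ≤ N := by exact_mod_cast h1
  have h2r : (x₂ : ℝ) ≤ N := by exact_mod_cast h2
  have key : ∀ y : ℝ, (1 - 4 * δ) * T ≤ y → a * (1 - 4 * δ) * (T / ℓ) ≤ a * (y / ℓ) := by
    intro y hy
    calc a * (1 - 4 * δ) * (T / ℓ) = a * ((1 - 4 * δ) * T / ℓ) := by ring
      _ ≤ a * (y / ℓ) := mul_le_mul_of_nonneg_left (div_le_div_of_nonneg_right hy hℓ.le) ha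
  have q1 : δ * T ≤ (1 - 4 * δ) * T := mul_le_mul_of_nonneg_right (by linarith) hT0.le
  by_cases c1 : δ * T ≤ x₁
  · by_cases c2 : δ * T ≤ x₂
    · have g1 := hlow x₁ c1 (by linarith)
      have g2 := hlow x₂ c2 (by linarith)
      have g3 := key ((x₁ : ℝ) + x₂) (by
        have : (1 - 4 * δ) * T = (1 - 2 * δ) * T - 2 * (δ * T) := by ring
        linarith)
      rw [add_div, mul_add] at g3
      linarith
    · have c3 : (1 - 4 * δ) * T ≤ x₁ := by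
        have : (1 - 4 * δ) * T = (1 - 2 * δ) * T - 2 * (δ * T) := by ring
        push Not at c2
        linarith
      have g1 := hlow x₁ c1 (by linarith)
      have g3 := key x₁ c3
      have := hV0 x₂
      linarith
  · have c3 : (1 - 4 * δ) * T ≤ x₂ := by
      have : (1 - 4 * δ) * T = (1 - 2 * δ) * T - 2 * (δ * T) := by ring
      push Not at c1
      linarith
    have g1 := hlow x₂ (by linarith) (by linarith)
    have g3 := key x₂ c3
    have := hV0 x₁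
    linarith

/-- the length of the left window -/
noncomputable def YR (t e L : ℝ) : ℕ := ⌊(1 + e) * (L + Real.log 3) ^ t⌋₊

/-- the constant in the number of destinations -/
noncomputable def Gam (t e θ δ₁ : ℝ) : ℝ :=
  (om (t / θ) / θ - δ₁) * (1 - 4 * δ₁) - δ₁ - 2 * δ₁ * ((1 + e) * (om (t / θ) / θ) + δ₁)

set_option maxHeartbeats 4000000 in
theorem nice_row (Z W : ℕ → ℕ) (t c e θ β b ρ δ₁ : ℝ) (hc : 0 < c) (ht : 2 < t) (he : 0 < e)
    (hδ : 0 < δ₁) (hδ1 : δ₁ ≤ 1 / 20) (hδe : 4 * δ₁ ≤ e) (hθ : 0 < θ) (hθ1 : θ < 1) (hθβ : θ < β) (hβb : β < b)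
    (hW : Tendsto (fun p : ℕ => (W p : ℝ) / (Real.log p) ^ t) atTop (𝓝 1))
    (hZ : Tendsto (fun p : ℕ => Real.log (Z p) / Real.log (Real.log p)) atTop (𝓝 β))
    (hΓ : 0 < Gam t e θ δ₁)
    (hρ : (c * (om (2 / θ) / θ) + δ₁) * (1 + δ₁) ≤ ρ * Gam t e θ δ₁) :
    ∃ Z0 : ℕ, ∀ Zc : ℕ, Z0 ≤ Zc → ∀ᶠ X : ℝ in atTop, ∀ (ps : ℕ) (S : Finset ℕ), GoodP Zc ps → GoodS X S →
      ∀ n : ℕ, X < n → (n : ℝ) < 3 * X → n ≡ 0 [MOD WD X (DD θ (Real.log X)) S ps] →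
        (bad (WD X (DD θ (Real.log X)) S ps) (YR t e (Real.log X)) n (TS X θ b S ps) : ℝ) ≤
          δ₁ * (2 * VV (WD X (DD θ (Real.log X)) S ps) 0 (YR t e (Real.log X)) + 1) →
        Nice Z W ρ t c n := by
  have ht0 : 0 < t := by linarith
  have hc0 : 1 / 2 ≤ om (t / θ) / θ := by
    have h1 : 1 / 2 ≤ om (t / θ) := om_ge _ (by rw [le_div_iff₀ hθ]; linarith)
    rw [le_div_iff₀ hθ]
    nlinarith
  set c₀ := om (t / θ) / θ with hc₀
  set c₂ := om (2 / θ) / θ with hc₂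
  have hc20 : 0 < c₂ := by
    have h1 : 1 / 2 ≤ om (2 / θ) := om_ge _ (by rw [le_div_iff₀ hθ]; linarith)
    rw [hc₂]
    have : 0 < om (2 / θ) := by linarith
    positivity
  obtain ⟨Z1, hZ1⟩ := VV_up 2 θ c δ₁ hθ hθ1 (by linarith) hc hδ _ (ratio_lim 2 c (Real.log 3) (by norm_num) hc)
  obtain ⟨Z2, hZ2⟩ := VV_up t θ (1 + e) δ₁ hθ hθ1 (by linarith) (by linarith) hδ _
    (ratio_lim t (1 + e) (Real.log 3) ht0 (by linarith))
  refine ⟨max Z1 Z2, fun Zc hZc => ?_⟩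
  obtain ⟨n₀, hn₀⟩ := eventually_atTop.1 (sizes t ht W hW c δ₁ hc hδ (by linarith))
  have ev1 : ∀ᶠ L : ℝ in atTop, c * (L + Real.log 3) ^ 2 ≤ δ₁ * (L ^ t / Real.log L) := by
    have h1 := Pool.Agent.R529.LD.ev_main ((t + 2) / 2) t 1 (δ₁ / (2 * c)) (by linarith) (by norm_num) (by positivity)
    have h2 := (tendsto_rpow_atTop (show 0 < (t + 2) / 2 - 2 by linarith)).eventually_ge_atTop (1 : ℝ)
    filter_upwards [h1, h2, ev_shift 2 (Real.log 3) 1 one_pos, eventually_gt_atTop (1 : ℝ)] with L h3 h4 h5 h6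
    have h7 := Real.log_pos h6
    have h8 : L ^ (2 : ℝ) ≤ L ^ ((t + 2) / 2) := Real.rpow_le_rpow_of_exponent_le h6.le (by linarith)
    have h9 : (L + Real.log 3) ^ (2 : ℝ) = (L + Real.log 3) ^ 2 := by
      rw [← Real.rpow_natCast]; norm_num
    rw [h9] at h5
    rw [one_mul] at h3
    calc c * (L + Real.log 3) ^ 2 ≤ c * (2 * L ^ ((t + 2) / 2)) := by
          apply mul_le_mul_of_nonneg_left _ hc.le
          linarith
      _ ≤ c * (2 * (δ₁ / (2 * c) * (L ^ t / Real.log L))) := by gcongr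
      _ = _ := by field_simp
  have ev2 : ∀ᶠ L : ℝ in atTop, 1 ≤ δ₁ * L ^ t := by
    filter_upwards [(tendsto_rpow_atTop ht0).eventually_ge_atTop (1 / δ₁)] with L hL
    rw [div_le_iff₀ hδ] at hL
    linarith
  have evL := (((ev_shift t (Real.log 3) δ₁ hδ).and (ev_shift (t - 2) (Real.log 3) δ₁ hδ)).and (ev1.and ev2)).and
    ((DD_ev θ hθ1).and (eventually_ge_atTop (2 : ℝ)))
  filter_upwards [hZ1 Zc ((le_max_left _ _).trans hZc), hZ2 Zc ((le_max_right _ _).trans hZc),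
    Real.tendsto_log_atTop.eventually evL, V_low t θ δ₁ δ₁ hθ hθ1 (by linarith) hδ hδ,
    levels Z θ β b hθ hθ1.le hθβ hβb hZ, eventually_ge_atTop (n₀ : ℝ), eventually_ge_atTop (1 : ℝ)]
    with X a1 a2 a3 a4 a5 a6 a7 ps S hps hS n hXn hn3 hmod hbad
  obtain ⟨⟨⟨b1, b2⟩, b3, b4⟩, b5, b6⟩ := a3
  set L := Real.log X with hL
  set ℓ := Real.log L with hℓ
  have hL0 : 0 < L := by linarith
  have hℓ0 : 0 < ℓ := Real.log_pos (by linarith)
  have hLt : 0 < L ^ t := by positivity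
  set W' := WD X (DD θ L) S ps with hW'
  set Y := YR t e L with hY
  have hfl := floor_eq (θ := θ) hL0
  -- the sizes
  have hX0 : 0 < X := by linarith
  have hn0 : (0 : ℝ) < n := by linarith
  have hnn : n₀ ≤ n := by
    have : (n₀ : ℝ) ≤ n := by linarith
    exact_mod_cast this
  obtain ⟨s1, s2, s3⟩ := hn₀ n hnn
  set ln := Real.log n with hln
  have hLn : L ≤ ln := Real.log_le_log hX0 hXn.le
  have hnL : ln ≤ L + Real.log 3 := by
    have h1 : ln ≤ Real.log (3 * X) := Real.log_le_log hn0 hn3.le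
    rw [Real.log_mul (by norm_num) hX0.ne'] at h1
    linarith
  set w := ⌊c * ln ^ 2⌋₊ with hw
  have hLt1 : L ^ t ≤ ln ^ t := Real.rpow_le_rpow hL0.le hLn ht0.le
  have hLt2 : ln ^ t ≤ (L + Real.log 3) ^ t := Real.rpow_le_rpow (by linarith) hnL ht0.le
  have hLt3 : ln ^ t ≤ (1 + δ₁) * L ^ t := hLt2.trans b1
  have hYr : (1 + 4 * δ₁) * ln ^ t - 1 ≤ Y := by
    have h1 : (1 + e) * (L + Real.log 3) ^ t < Y + 1 := Nat.lt_floor_add_one _
    have h2 : (1 + 4 * δ₁) * ln ^ t ≤ (1 + e) * (L + Real.log 3) ^ t := by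
      apply mul_le_mul (by linarith) hLt2 (by positivity) (by linarith)
    linarith
  have hwr : (w : ℝ) ≤ c * (L + Real.log 3) ^ 2 := by
    have h1 : (w : ℝ) ≤ c * ln ^ 2 := Nat.floor_le (by positivity)
    refine h1.trans ?_
    apply mul_le_mul_of_nonneg_left _ hc.le
    exact pow_le_pow_left₀ (by linarith) hnL 2
  have hδL : δ₁ * L ^ t ≤ δ₁ * ln ^ t := mul_le_mul_of_nonneg_left hLt1 hδ.le
  -- the survivors
  have v1 := a1 ps S hps hS
  have v2 := a2 ps S hps hS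
  rw [← hW'] at v1 v2
  change (VV W' 0 Y : ℝ) + 81 ≤ ((1 + e) * c₀ + δ₁) * (L ^ t / ℓ) at v2
  intro p hpw hpW
  have hpw2 : p ≤ n + w := hpw
  obtain ⟨p1, p2, p3, p4, p5⟩ := s3 p hpw hpW
  obtain ⟨z1, z2⟩ := a5 p (by linarith) (by linarith)
  have hWdiv : ∀ q : ℕ, q.Prime → (q ∣ W' ↔ q ∈ PD X (DD θ L) S ps) := by
    intro q hq
    constructor
    · intro h
      rw [hW'] at h
      unfold WD at h
      obtain ⟨r, hr, hqr⟩ := (Prime.dvd_finsetProd_iff hq.prime _).1 h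
      rwa [(Nat.prime_dvd_prime_iff_eq hq (PD_prime hr)).1 hqr]
    · intro h
      rw [hW']
      unfold WD
      exact dvd_prod_of_mem _ h
  have hwin := card_win Z W W' n p w hmod (by
    intro q hq hqW
    have h1 := (hWdiv q hq).1 hqW
    rw [mem_PD b5 a7, ← hL, hfl] at h1
    exact h1.1.trans z1)
  have hpYr : (n : ℝ) ≤ p + Y := by
    have : (1 + δ₁) * ln ^ t ≤ (1 + 4 * δ₁) * ln ^ t - 1 := by
      have : (1 + 4 * δ₁) * ln ^ t = (1 + δ₁) * ln ^ t + 3 * (δ₁ * ln ^ t) := by ring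
      linarith
    linarith
  have hpw' : (p : ℝ) ≤ n + w := by exact_mod_cast hpw
  have hpYr2 : (p : ℝ) + W p ≤ n + Y := by
    have : (1 + 4 * δ₁) * ln ^ t = (1 + 2 * δ₁) * ln ^ t + 2 * (δ₁ * ln ^ t) := by ring
    linarith
  have hPh := card_Ph Z W W' n p Y (TS X θ b S ps) (by
    intro q hq hqZ hqW
    rw [mem_TS]
    exact ⟨⟨hq.one_lt.le, hqZ.trans z2⟩, hq, fun h => hqW ((hWdiv q hq).2 h)⟩)
    (by exact_mod_cast hpYr) (by exact_mod_cast hpYr2)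
  set M := ((Ioc p (p + W p)).filter (fun m => m.Coprime W')).card with hM
  -- the lower bound for `M`
  have hWlow : (1 - 2 * δ₁) * L ^ t ≤ W p := (mul_le_mul_of_nonneg_left hLt1 (by linarith)).trans p4
  have hWup : (W p : ℝ) ≤ 2 * L ^ t := by
    refine p5.trans ?_
    calc (1 + 2 * δ₁) * ln ^ t ≤ (1 + 2 * δ₁) * ((1 + δ₁) * L ^ t) := mul_le_mul_of_nonneg_left hLt3 (by linarith)
      _ = ((1 + 2 * δ₁) * (1 + δ₁)) * L ^ t := by ring
      _ ≤ 2 * L ^ t := by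
          apply mul_le_mul_of_nonneg_right _ hLt.le
          nlinarith only [hδ, hδ1]
  have hlow : ∀ x : ℕ, δ₁ * L ^ t ≤ x → (x : ℝ) ≤ 2 * L ^ t → (c₀ - δ₁) * (x / ℓ) ≤ (VV W' 0 x : ℝ) := by
    intro x h1 h2
    exact a4 ps S x h1 h2
  have hMlow : ((c₀ - δ₁) * (1 - 4 * δ₁) - δ₁) * (L ^ t / ℓ) ≤ M := by
    rcases le_or_gt p n with h | h
    · have h1 := card_left W' n p (W p) hmod h hpW
      have h2 := two_pieces (fun x => (VV W' 0 x : ℝ)) (fun x => Nat.cast_nonneg _) (c₀ - δ₁) δ₁ (L ^ t) ℓ hδ hδ1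
        (by linarith) b4 hℓ0 hlow (n - p - 1) (W p - (n - p)) (W p) (by omega) (by omega) (by omega) hWup hWlow
      have h3 : ((VV W' 0 (n - p - 1) : ℕ) : ℝ) + ((VV W' 0 (W p - (n - p)) : ℕ) : ℝ) ≤ M := by exact_mod_cast h1
      have h4 : 0 ≤ δ₁ * (L ^ t / ℓ) := by positivity
      have h5 : ((c₀ - δ₁) * (1 - 4 * δ₁) - δ₁) * (L ^ t / ℓ) =
        (c₀ - δ₁) * (1 - 4 * δ₁) * (L ^ t / ℓ) - δ₁ * (L ^ t / ℓ) := by ring
      linarith
    · have h1 := card_right W' n p (W p) hmod h.le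
      have h2 := hlow (W p) (by
        refine le_trans ?_ hWlow
        exact mul_le_mul_of_nonneg_right (by linarith) hLt.le) hWup
      have h3 : ((VV W' 0 (W p) : ℕ) : ℝ) ≤ M + ((p - n : ℕ) : ℝ) := by exact_mod_cast h1
      have h4 : ((p - n : ℕ) : ℝ) ≤ w := by exact_mod_cast (Nat.sub_le_iff_le_add'.2 hpw2 : p - n ≤ w)
      have h6 : (c₀ - δ₁) * (1 - 4 * δ₁) * (L ^ t / ℓ) ≤ (c₀ - δ₁) * (W p / ℓ) := by
        calc (c₀ - δ₁) * (1 - 4 * δ₁) * (L ^ t / ℓ) = (c₀ - δ₁) * ((1 - 4 * δ₁) * L ^ t / ℓ) := by ring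
          _ ≤ (c₀ - δ₁) * (W p / ℓ) := by
              apply mul_le_mul_of_nonneg_left _ (by linarith)
              apply div_le_div_of_nonneg_right _ hℓ0.le
              refine le_trans ?_ hWlow
              exact mul_le_mul_of_nonneg_right (by linarith) hLt.le
      have h5 : ((c₀ - δ₁) * (1 - 4 * δ₁) - δ₁) * (L ^ t / ℓ) =
        (c₀ - δ₁) * (1 - 4 * δ₁) * (L ^ t / ℓ) - δ₁ * (L ^ t / ℓ) := by ring
      linarith
  have hbad2 : (bad W' Y n (TS X θ b S ps) : ℝ) ≤ 2 * δ₁ * ((1 + e) * c₀ + δ₁) * (L ^ t / ℓ) := by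
    refine hbad.trans ?_
    calc δ₁ * (2 * (VV W' 0 Y : ℝ) + 1) ≤ δ₁ * (2 * (((1 + e) * c₀ + δ₁) * (L ^ t / ℓ))) := by
          apply mul_le_mul_of_nonneg_left _ hδ.le
          linarith
      _ = _ := by ring
  have hPhlow : Gam t e θ δ₁ * (L ^ t / ℓ) ≤ (Ph Z W p).card := by
    have h1 : (M : ℝ) ≤ (Ph Z W p).card + bad W' Y n (TS X θ b S ps) := by exact_mod_cast hPh
    have h2 : Gam t e θ δ₁ * (L ^ t / ℓ) = ((c₀ - δ₁) * (1 - 4 * δ₁) - δ₁) * (L ^ t / ℓ) -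
        2 * δ₁ * ((1 + e) * c₀ + δ₁) * (L ^ t / ℓ) := by
      unfold Gam
      rw [← hc₀]
      ring
    linarith
  have hPhpos : (0 : ℝ) < (Ph Z W p).card := lt_of_lt_of_le (by positivity) hPhlow
  refine ⟨by exact_mod_cast hPhpos, ?_⟩
  -- the window
  have hwg : w ≤ ⌊c * (L + Real.log 3) ^ (2 : ℝ)⌋₊ := by
    apply Nat.floor_le_floor
    rw [← Real.rpow_natCast]
    push_cast
    apply mul_le_mul_of_nonneg_left _ hc.le
    exact Real.rpow_le_rpow (by linarith) hnL (by norm_num)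
  have hwin2 : (((Ph Z W p).filter (fun m => m ∈ Ioc n (n + w))).card : ℝ) ≤ (c * c₂ + δ₁) * (L ^ (2 : ℝ) / ℓ) := by
    have h1 : (((Ph Z W p).filter (fun m => m ∈ Ioc n (n + w))).card : ℝ) ≤
        (VV W' 0 ⌊c * (L + Real.log 3) ^ (2 : ℝ)⌋₊ : ℝ) := by
      exact_mod_cast hwin.trans (VV_mono W' hwg)
    linarith
  refine hwin2.trans ?_
  have hpow : L ^ (2 - t) ≤ (1 + δ₁) * ln ^ (2 - t) := by
    have h1 : ln ^ (t - 2) ≤ (1 + δ₁) * L ^ (t - 2) :=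
      (Real.rpow_le_rpow (by linarith) hnL (by linarith)).trans b2
    have h2 : L ^ (2 - t) = (L ^ (t - 2))⁻¹ := by
      rw [← Real.rpow_neg hL0.le]; congr 1; ring
    have h3 : ln ^ (2 - t) = (ln ^ (t - 2))⁻¹ := by
      rw [← Real.rpow_neg (by linarith)]; congr 1; ring
    have h4 : 0 < L ^ (t - 2) := by positivity
    have h5 : 0 < ln ^ (t - 2) := Real.rpow_pos_of_pos (by linarith) _
    rw [h2, h3, inv_eq_one_div, inv_eq_one_div, mul_one_div, div_le_div_iff₀ h4 h5]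
    linarith
  have hLL : L ^ (2 : ℝ) = L ^ (2 - t) * L ^ t := by
    rw [← Real.rpow_add hL0]; congr 1; ring
  have hln2 : 0 < ln ^ (2 - t) := Real.rpow_pos_of_pos (by linarith) _
  have hρ0 : 0 < ρ := by
    have h1 : 0 < (c * c₂ + δ₁) * (1 + δ₁) := by positivity
    have h2 : 0 < ρ * Gam t e θ δ₁ := lt_of_lt_of_le h1 hρ
    exact pos_of_mul_pos_left h2 hΓ.le
  calc (c * c₂ + δ₁) * (L ^ (2 : ℝ) / ℓ) = (c * c₂ + δ₁) * L ^ (2 - t) * (L ^ t / ℓ) := by rw [hLL]; ring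
    _ ≤ (c * c₂ + δ₁) * ((1 + δ₁) * ln ^ (2 - t)) * (L ^ t / ℓ) := by
        apply mul_le_mul_of_nonneg_right _ (by positivity)
        exact mul_le_mul_of_nonneg_left hpow (by positivity)
    _ = ((c * c₂ + δ₁) * (1 + δ₁)) * (ln ^ (2 - t) * (L ^ t / ℓ)) := by ring
    _ ≤ (ρ * Gam t e θ δ₁) * (ln ^ (2 - t) * (L ^ t / ℓ)) := mul_le_mul_of_nonneg_right hρ (by positivity)
    _ = ρ * ln ^ (2 - t) * (Gam t e θ δ₁ * (L ^ t / ℓ)) := by ring
    _ ≤ ρ * ln ^ (2 - t) * (Ph Z W p).card := mul_le_mul_of_nonneg_left hPhlow (by positivity)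

end Pool.Agent.R526.SP
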