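import Pool.Agent.R526.SP.Three
import Pool.Agent.R526.SP.Nice

/-! # Many good windows -/

set_option autoImplicit false

open Finset Filter Topology
open Pool.Agent.H510R2.Maier Pool.Agent.H510R2.Maier.G
open Pool.Agent.H378R2 hiding DD WW
open Pool.Agent.R529.LD (DD floor_eq DD_ev small_lt)
open Pool.Agent.R529.BU (ww om om_ge om_cont)
open Pool.Agent.R526.LM

namespace Pool.Agent.R526.SP

open Classical in
/-- the good windows -/
noncomputable def SG (Z W : ℕ → ℕ) (ρ u b c t e C y : ℝ) (x : ℕ) : Finset ℕ :=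
  (Icc 1 x).filter (fun n : ℕ => y / 2 < (n : ℝ) ∧ cost u b c t e n ≤ C * Real.log n ∧ Nice Z W ρ t c n)

theorem mem_SG {Z W : ℕ → ℕ} {ρ u b c t e C y : ℝ} {x n : ℕ} : n ∈ SG Z W ρ u b c t e C y x ↔
    (1 ≤ n ∧ n ≤ x) ∧ y / 2 < (n : ℝ) ∧ cost u b c t e n ≤ C * Real.log n ∧ Nice Z W ρ t c n := by
  classical
  unfold SG
  simp only [Finset.mem_filter, Finset.mem_Icc]

theorem pick (P : ℝ → Prop) (h : ∀ᶠ s in 𝓝 (0 : ℝ), P s) (m : ℝ) (hm : 0 < m) : ∃ s : ℝ, 0 < s ∧ s < m ∧ P s := by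
  obtain ⟨r, hr, h2⟩ := Metric.eventually_nhds_iff.1 h
  refine ⟨min (r / 2) (m / 2), by positivity, (min_le_right _ _).trans_lt (by linarith), h2 ?_⟩
  rw [Real.dist_eq, sub_zero, abs_of_pos (by positivity)]
  exact (min_le_left _ _).trans_lt (by linarith)

/-- choice of the parameters -/
theorem choice (c t e β ρ u b C : ℝ) (ht : 2 < t) (he : 0 < e) (hβ : 0 < β) (hβ1 : β ≤ 1)
    (hC : u * (c * ww 2 β) + b * ((1 + e) * ww t β) < C) (hρ : c * om (2 / β) < ρ * om (t / β)) :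
    ∃ x δ₁ θ b₁ : ℝ, 0 < x ∧ x ≤ 1 ∧ 0 < δ₁ ∧ δ₁ ≤ 1 / 20 ∧ 4 * δ₁ ≤ e ∧ 0 < θ ∧ θ < β ∧ β < b₁ ∧ b₁ < 2 ∧
      Real.log (b₁ / θ) < δ₁ * x / 1000 ∧ 0 < Gam t e θ δ₁ ∧
      (c * (om (2 / θ) / θ) + δ₁) * (1 + δ₁) ≤ ρ * Gam t e θ δ₁ ∧
      (1 + x) * ((1 + x) ^ 2 * (u * (c * ww 2 θ + x) + b * ((1 + e) * ww t θ + x))) < C := by
  have hom : 0 < om (t / β) := by
    have := om_ge (t / β) (by rw [le_div_iff₀ hβ]; linarith)
    linarith
  obtain ⟨x, hx0, hx1, hx2⟩ := small_lt (fun x => (1 + x) * ((1 + x) ^ 2 *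
      (u * (c * ww 2 β + x) + b * ((1 + e) * ww t β + x)))) (by fun_prop) C 1 one_pos
    (by simp only [add_zero, one_mul, one_pow]; exact hC)
  have hG0 : Gam t e β 0 = om (t / β) / β := by unfold Gam; ring
  have c1 : ContinuousAt (fun d => (c * (om (2 / β) / β) + d) * (1 + d) - ρ * Gam t e β d) 0 := by
    unfold Gam; fun_prop
  have c2 : ContinuousAt (fun d => Gam t e β d) 0 := by
    unfold Gam; fun_prop
  have e1 : ∀ᶠ d in 𝓝 (0 : ℝ), (c * (om (2 / β) / β) + d) * (1 + d) - ρ * Gam t e β d < 0 := by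
    apply c1.eventually_lt_const
    change (c * (om (2 / β) / β) + 0) * (1 + 0) - ρ * Gam t e β 0 < 0
    rw [hG0]
    have : (c * (om (2 / β) / β) + 0) * (1 + 0) - ρ * (om (t / β) / β) = (c * om (2 / β) - ρ * om (t / β)) / β := by ring
    rw [this]
    exact div_neg_of_neg_of_pos (by linarith) hβ
  have e2 : ∀ᶠ d in 𝓝 (0 : ℝ), 0 < Gam t e β d := by
    apply c2.eventually_const_lt
    change 0 < Gam t e β 0
    rw [hG0]
    positivity
  obtain ⟨δ₁, hδ0, hδ1, hδ2, hδ3⟩ := pick _ (e1.and e2) (min (1 / 20) (e / 4)) (by positivity)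
  have hA : δ₁ ≤ 1 / 20 := hδ1.le.trans (min_le_left _ _)
  have hB : δ₁ ≤ e / 4 := hδ1.le.trans (min_le_right _ _)
  -- the exponents
  have hne : ∀ a : ℝ, ContinuousAt (fun s : ℝ => a / (β - s)) 0 := by
    intro a
    exact continuousAt_const.div (by fun_prop) (by simp only [sub_zero]; exact hβ.ne')
  have hco : ∀ a : ℝ, ContinuousAt (fun s : ℝ => om (a / (β - s))) 0 := fun a =>
    ContinuousAt.comp (f := fun s : ℝ => a / (β - s)) (g := om) om_cont.continuousAt (hne a)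
  have hco2 : ∀ a : ℝ, ContinuousAt (fun s : ℝ => om (a / (β - s)) / (β - s)) 0 := fun a =>
    (hco a).div (by fun_prop) (by simp only [sub_zero]; exact hβ.ne')
  have hcG : ContinuousAt (fun s : ℝ => Gam t e (β - s) δ₁) 0 := by
    unfold Gam
    have h1 := hco2 t
    exact (((h1.sub continuousAt_const).mul continuousAt_const).sub continuousAt_const).sub
      (continuousAt_const.mul ((continuousAt_const.mul h1).add continuousAt_const))
  have hcw : ∀ a : ℝ, ContinuousAt (fun s : ℝ => ww a (β - s)) 0 := fun a => by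
    unfold ww
    exact continuousAt_const.mul (hco a)
  have f1 : ∀ᶠ s in 𝓝 (0 : ℝ), Real.log ((β + s) / (β - s)) < δ₁ * x / 1000 := by
    have h1 : ContinuousAt (fun s : ℝ => Real.log ((β + s) / (β - s))) 0 := by
      apply ContinuousAt.log
      · exact ContinuousAt.div (by fun_prop) (by fun_prop) (by simp only [sub_zero]; exact hβ.ne')
      · simp only [add_zero, sub_zero, div_self hβ.ne']
        norm_num
    apply h1.eventually_lt_const
    simp only [add_zero, sub_zero, div_self hβ.ne', Real.log_one]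
    positivity
  have f2 : ∀ᶠ s in 𝓝 (0 : ℝ), 0 < Gam t e (β - s) δ₁ := by
    apply hcG.eventually_const_lt
    simp only [sub_zero]
    exact hδ3
  have f3 : ∀ᶠ s in 𝓝 (0 : ℝ), (c * (om (2 / (β - s)) / (β - s)) + δ₁) * (1 + δ₁) - ρ * Gam t e (β - s) δ₁ < 0 := by
    have h1 : ContinuousAt (fun s : ℝ => (c * (om (2 / (β - s)) / (β - s)) + δ₁) * (1 + δ₁) - ρ * Gam t e (β - s) δ₁) 0 :=
      (((continuousAt_const.mul (hco2 2)).add continuousAt_const).mul continuousAt_const).sub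
        (continuousAt_const.mul hcG)
    apply h1.eventually_lt_const
    simp only [sub_zero]
    exact hδ2
  have f4 : ∀ᶠ s in 𝓝 (0 : ℝ), (1 + x) * ((1 + x) ^ 2 * (u * (c * ww 2 (β - s) + x) + b * ((1 + e) * ww t (β - s) + x))) < C := by
    have h1 : ContinuousAt (fun s : ℝ => (1 + x) * ((1 + x) ^ 2 * (u * (c * ww 2 (β - s) + x) +
        b * ((1 + e) * ww t (β - s) + x)))) 0 :=
      continuousAt_const.mul (continuousAt_const.mul
        ((continuousAt_const.mul ((continuousAt_const.mul (hcw 2)).add continuousAt_const)).add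
          (continuousAt_const.mul ((continuousAt_const.mul (hcw t)).add continuousAt_const))))
    apply h1.eventually_lt_const
    simp only [sub_zero]
    exact hx2
  obtain ⟨s, hs0, hs1, ⟨g1, g2⟩, g3, g4⟩ := pick _ ((f1.and f2).and (f3.and f4)) (min β (1 / 2)) (by positivity)
  have hs2 : s < β := hs1.trans_le (min_le_left _ _)
  have hs3 : s < 1 / 2 := hs1.trans_le (min_le_right _ _)
  exact ⟨x, δ₁, β - s, β + s, hx0, hx1.le, hδ0, hA, by linarith, by linarith, by linarith, by linarith, by linarith,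
    g1, g2, by linarith, g4⟩

set_option maxHeartbeats 4000000 in
theorem good_many (Z W : ℕ → ℕ) (ρ u b c t e C β η : ℝ) (hu : 0 < u) (hb : 0 < b) (hc : 0 < c) (ht : 2 < t) (he : 0 < e)
    (hβ : 0 < β) (hβ1 : β ≤ 1) (hη : 0 < η)
    (hW : Tendsto (fun p : ℕ => (W p : ℝ) / (Real.log p) ^ t) atTop (𝓝 1))
    (hZ : Tendsto (fun p : ℕ => Real.log (Z p) / Real.log (Real.log p)) atTop (𝓝 β))
    (hC : u * (c * ww 2 β) + b * ((1 + e) * ww t β) < C) (hρ : c * om (2 / β) < ρ * om (t / β)) :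
    ∀ᶠ k : ℕ in atTop, ((2 : ℝ) ^ k) ^ (1 - η) / 2 ≤
      ((SG Z W ρ u b c t e C (((2 : ℝ) ^ k) ^ (1 - η)) (2 ^ k)).card : ℝ) := by
  obtain ⟨x, δ₁, θ, b₁, hx0, hx1, hδ0, hδ1, hδe, hθ, hθβ, hβb, hb2, hlog, hΓ, hρΓ, hxC⟩ :=
    choice c t e β ρ u b C ht he hβ hβ1 hC hρ
  have hθ1 : θ < 1 := by linarith
  have hw2 : 0 < ww 2 θ := Pool.Agent.R529.BU.ww_pos 2 θ hθ (by linarith)
  have hwt : 0 < ww t θ := Pool.Agent.R529.BU.ww_pos t θ hθ (by linarith)
  set R := u * (c * ww 2 θ + x) + b * ((1 + e) * ww t θ + x) with hR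
  have hR0 : 0 < R := by positivity
  have hC0 : 0 < C := lt_trans (by positivity) hxC
  obtain ⟨m, hm⟩ := exists_nat_gt (max 2 t)
  have hm2 : (2 : ℝ) < m := (le_max_left _ _).trans_lt hm
  have hmt : t < m := (le_max_right _ _).trans_lt hm
  have hg := ratio_lim 2 c (Real.log 3) (by norm_num) hc
  have hY := ratio_lim t (1 + e) (Real.log 3) (by linarith) (by linarith)
  obtain ⟨Z1, hZ1⟩ := side_up 2 θ c x hθ hθ1 (by linarith) hc hx0 _ hg
  obtain ⟨Z2, hZ2⟩ := side_up t θ (1 + e) x hθ hθ1 (by linarith) (by linarith) hx0 _ hY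
  obtain ⟨Z3, hZ3⟩ := nice_row Z W t c e θ β b₁ ρ δ₁ hc ht he hδ0 hδ1 hδe hθ hθ1 hθβ hβb hW hZ hΓ hρΓ
  obtain ⟨Z4, hZ4⟩ := T_sum θ b₁ (δ₁ * x / 1000) hθ hθ1 (by linarith) hlog
  set Zc := max (max Z1 Z2) (max Z3 Z4) with hZc
  have hA1 := hZ1 Zc ((le_max_left _ _).trans (le_max_left _ _))
  have hA2 := hZ2 Zc ((le_max_right _ _).trans (le_max_left _ _))
  have hA3 := hZ3 Zc ((le_max_left _ _).trans (le_max_right _ _))
  have hA4 := hZ4 Zc ((le_max_right _ _).trans (le_max_right _ _))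
  obtain ⟨X0, hX0⟩ := three_windows m x hx0 hx1 Zc
  have evL := ((ev_pow_bd 2 c (Real.log 3) m (by norm_num) hm2 hc).and
    (ev_pow_bd t (1 + e) (Real.log 3) m (by linarith) hmt (by linarith))).and
    ((eventually_ge_atTop ((1 + x) / x + 1)).and (DD_ev θ hθ1))
  have h3k : Tendsto (fun k : ℕ => (2 : ℝ) ^ k / 3) atTop atTop :=
    (tendsto_pow_atTop_atTop_of_one_lt (by norm_num : (1 : ℝ) < 2)).atTop_div_const (by norm_num)
  have evX : ∀ᶠ X : ℝ in atTop, (Real.log X) ^ m ≤ X / 2 := Pool.Agent.R529.BU.ev_pow_le m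
  filter_upwards [h3k.eventually hA1, h3k.eventually hA2, h3k.eventually_ge_atTop X0,
    h3k.eventually (Real.tendsto_log_atTop.eventually evL), h3k.eventually_gt_atTop 1,
    h3k.eventually (ev_count θ η x hθ hθ1 hη hx0), h3k.eventually evX, h3k.eventually hA3, h3k.eventually hA4]
    with k g1 g2 g3 g4 g5 g6 g7 g8 g9
  obtain ⟨⟨g41, g42⟩, g43, g44⟩ := g4
  set X : ℝ := (2 : ℝ) ^ k / 3 with hXdef
  have h2k : (2 : ℝ) ^ k = 3 * X := by rw [hXdef]; ring
  have hXpos : 0 < X := by linarith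
  obtain ⟨ps, S, hps, hS, hrow⟩ := hX0 X g3
  have hs1 := g1 ps S hps hS
  have hs2 := g2 ps S hps hS
  have hs3 := g8 ps S hps hS
  have hs4 := g9 ps S hps hS
  set L := Real.log X with hL
  have hL1 : (1 + x) / x + 1 ≤ L := g43
  have hxx : 0 < (1 + x) / x := by positivity
  have hL0 : 1 < L := by linarith
  have hLx : L ≤ (1 + x) * (L - 1) := by
    have h1 : (1 + x) / x ≤ L - 1 := by linarith
    rw [div_le_iff₀ hx0] at h1
    linarith
  have hl3 : 0 ≤ Real.log 3 := Real.log_nonneg (by norm_num)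
  set g := ⌊c * (L + Real.log 3) ^ (2 : ℝ)⌋₊ with hgd
  set Y := YR t e L with hYd
  have hYd2 : Y = ⌊(1 + e) * (L + Real.log 3) ^ t⌋₊ := rfl
  rw [← hYd2] at hs2 g42
  have hβ' : 0 < b * L ^ (2 - t) := by
    have : 0 < L ^ (2 - t) := Real.rpow_pos_of_pos (by linarith) _
    positivity
  have hTq : ∀ q ∈ TS X θ b₁ S ps, q.Prime ∧ q ∉ PD X (DD θ L) S ps ∧ (q : ℝ) ≤ L ^ m := by
    intro q hq
    rw [mem_TS] at hq
    refine ⟨hq.2.1, hq.2.2, ?_⟩
    have h1 : (q : ℝ) ≤ L ^ b₁ := (Nat.cast_le.2 hq.1.2).trans (Nat.floor_le (Real.rpow_nonneg (by linarith) _))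
    refine h1.trans ?_
    rw [← Real.rpow_natCast]
    exact Real.rpow_le_rpow_of_exponent_le hL0.le (by linarith)
  have hr := hrow (DD θ L) u (b * L ^ (2 - t)) _ _ δ₁ g Y (TS X θ b₁ S ps) (by linarith) g41 g42 hu hβ' hδ0 hs1 hs2 hTq
    (by linarith)
  set Q : ℕ → Prop := fun n => n ≡ 0 [MOD WD X (DD θ L) S ps] ∧
    (L - 1) * (u * cnt n g + b * L ^ (2 - t) * cnt (n - Y) Y) ≤
      (1 + x) ^ 2 * (u * ((c * ww 2 θ + x) * L ^ (2 : ℝ)) + b * L ^ (2 - t) * (((1 + e) * ww t θ + x) * L ^ t)) ∧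
    (bad (WD X (DD θ L) S ps) Y n (TS X θ b₁ S ps) : ℝ) ≤ δ₁ * (2 * VV (WD X (DD θ L) S ps) 0 Y + 1) with hQ
  have hsub : rowset X Q ⊆ SG Z W ρ u b c t e C (((2 : ℝ) ^ k) ^ (1 - η)) (2 ^ k) := by
    intro n hn
    obtain ⟨m1, m2, m3, m5, m4, m6⟩ := mem_rowset.1 hn
    have hn0 : (0 : ℝ) < n := by linarith
    have hnk : n ≤ 2 ^ k := by
      have h1 : (n : ℝ) ≤ (2 : ℝ) ^ k := by linarith
      exact_mod_cast h1
    have hLn : L ≤ Real.log n := Real.log_le_log hXpos m2.le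
    have hnL : Real.log n ≤ L + Real.log 3 := by
      have h1 : Real.log n ≤ Real.log (3 * X) := Real.log_le_log hn0 m3.le
      rw [Real.log_mul (by norm_num) hXpos.ne'] at h1
      linarith
    have hy : ((2 : ℝ) ^ k) ^ (1 - η) / 2 < n := by
      have h1 : ((2 : ℝ) ^ k) ^ (1 - η) ≤ ((2 : ℝ) ^ k) ^ (1 : ℝ) :=
        Real.rpow_le_rpow_of_exponent_le (by linarith) (by linarith)
      rw [Real.rpow_one, h2k] at h1
      have h4 : x / 200 * X * Real.exp (-(3 / 2 * (L / DD θ L))) ≤ X := by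
        have h5 : Real.exp (-(3 / 2 * (L / DD θ L))) ≤ 1 := by
          apply Real.exp_le_one_iff.2
          have : 0 ≤ L / DD θ L := div_nonneg (by linarith) (by linarith)
          linarith
        have h6 : x / 200 * X * Real.exp (-(3 / 2 * (L / DD θ L))) ≤ x / 200 * X * 1 :=
          mul_le_mul_of_nonneg_left h5 (by positivity)
        nlinarith only [h6, hx1, hXpos, hx0]
      rw [h2k]
      have h7 := g6.trans h4
      have h8 : 0 ≤ (3 * X) ^ (1 - η) := by positivity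
      linarith
    rw [mem_SG]
    refine ⟨⟨m1.1, hnk⟩, hy, ?_, hs3 n m2 m3 m5 m6⟩
    have hYn : Y ≤ n := by
      have h1 : (Y : ℝ) ≤ L ^ m := g42
      have h2 : (Y : ℝ) ≤ n := by linarith
      exact_mod_cast h2
    have q1 : ((TP.TT n ⌊c * (Real.log n) ^ 2⌋₊).card : ℝ) ≤ cnt n g := by
      have h1 : ⌊c * (Real.log n) ^ 2⌋₊ ≤ g := by
        apply Nat.floor_le_floor
        rw [← Real.rpow_natCast]
        push_cast
        apply mul_le_mul_of_nonneg_left _ hc.le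
        exact Real.rpow_le_rpow (by linarith) hnL (by norm_num)
      rw [← TP.card_TT]
      exact_mod_cast TT_mono n h1
    have q2 : ((TP.TT (n - YY t e n) (YY t e n)).card : ℝ) ≤ cnt (n - Y) Y := by
      have h1 : YY t e n ≤ Y := by
        unfold YY
        rw [hYd2]
        apply Nat.floor_le_floor
        apply mul_le_mul_of_nonneg_left _ (by linarith)
        exact Real.rpow_le_rpow (by linarith) hnL (by linarith)
      rw [← TP.card_TT]
      exact_mod_cast cnt_left n Y _ h1 hYn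
    have q3 : (Real.log n) ^ (2 - t) ≤ L ^ (2 - t) :=
      Real.rpow_le_rpow_of_nonpos (by linarith) hLn (by linarith)
    have q4 : L ^ (2 - t) * L ^ t = L ^ 2 := by
      rw [← Real.rpow_add (by linarith), ← Real.rpow_natCast]
      norm_num
    have q5 : L ^ (2 : ℝ) = L ^ 2 := by
      rw [← Real.rpow_natCast]
      norm_num
    have q6 : (1 + x) ^ 2 * (u * ((c * ww 2 θ + x) * L ^ (2 : ℝ)) + b * L ^ (2 - t) * (((1 + e) * ww t θ + x) * L ^ t)) =
        (1 + x) ^ 2 * R * L ^ 2 := by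
      rw [q5, hR]
      calc _ = (1 + x) ^ 2 * (u * (c * ww 2 θ + x) * L ^ 2 + b * ((1 + e) * ww t θ + x) * (L ^ (2 - t) * L ^ t)) := by ring
        _ = _ := by rw [q4]; ring
    rw [q6] at m4
    have q7 : cost u b c t e n ≤ u * cnt n g + b * L ^ (2 - t) * cnt (n - Y) Y := by
      unfold cost
      have h1 : u * ((TP.TT n ⌊c * (Real.log n) ^ 2⌋₊).card : ℝ) ≤ u * cnt n g :=
        mul_le_mul_of_nonneg_left q1 hu.le
      have h2 : b * (Real.log n) ^ (2 - t) * ((TP.TT (n - YY t e n) (YY t e n)).card : ℝ) ≤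
          b * L ^ (2 - t) * cnt (n - Y) Y := by
        have h3 : b * (Real.log n) ^ (2 - t) ≤ b * L ^ (2 - t) := mul_le_mul_of_nonneg_left q3 hb.le
        exact mul_le_mul h3 q2 (Nat.cast_nonneg _) hβ'.le
      linarith
    set T := u * (cnt n g : ℝ) + b * L ^ (2 - t) * cnt (n - Y) Y with hT
    have q8 : T ≤ (1 + x) * ((1 + x) ^ 2 * R) * L := by
      have h1 : (L - 1) * T ≤ (L - 1) * ((1 + x) * ((1 + x) ^ 2 * R) * L) := by
        calc (L - 1) * T ≤ (1 + x) ^ 2 * R * L ^ 2 := m4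
          _ = (1 + x) ^ 2 * R * L * L := by ring
          _ ≤ (1 + x) ^ 2 * R * L * ((1 + x) * (L - 1)) := by
              apply mul_le_mul_of_nonneg_left hLx
              have : 0 < L := by linarith
              positivity
          _ = _ := by ring
      exact le_of_mul_le_mul_left h1 (by linarith)
    calc cost u b c t e n ≤ T := q7
      _ ≤ (1 + x) * ((1 + x) ^ 2 * R) * L := q8
      _ ≤ C * L := mul_le_mul_of_nonneg_right hxC.le (by linarith)
      _ ≤ C * Real.log n := mul_le_mul_of_nonneg_left hLn hC0.le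
  have h1 : ((rowset X Q).card : ℝ) ≤ ((SG Z W ρ u b c t e C (((2 : ℝ) ^ k) ^ (1 - η)) (2 ^ k)).card : ℝ) := by
    exact_mod_cast Finset.card_le_card hsub
  have h2 := (g6.trans hr).trans h1
  rw [← h2k] at h2
  have h3 : 0 ≤ ((2 : ℝ) ^ k) ^ (1 - η) := by positivity
  linarith

end Pool.Agent.R526.SP
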