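import Pool.Agent.R526.SP.Good
import Pool.Agent.R526.LM.Low

set_option autoImplicit false

/-! # Windows without moved primes -/

namespace Pool.Agent.R526.SP

open MeasureTheory ProbabilityTheory Filter Finset Topology Pool.Agent.R526.RS
open Pool.Agent.R526.LM (cost YY moves)

open scoped Classical

variable {Ω : Type} [MeasurableSpace Ω] (μ : Measure Ω) [IsProbabilityMeasure μ] {ξ : ℕ → Ω → ℕ}

/-- `X` is equal to `p` or uniform on `Φ` (with probability `δ`) -/
def Law2 (X : Ω → ℕ) (p : ℕ) (Φ : Finset ℕ) (δ : ℝ) : Prop :=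
  (∀ᵐ ω ∂μ, X ω = p ∨ X ω ∈ Φ) ∧ ∀ m ∈ Φ, μ.real {ω | X ω = m} = δ / Φ.card

variable {X : Ω → ℕ} {p : ℕ} {Φ : Finset ℕ} {δ : ℝ}

theorem sum_law (hX : Measurable X) (h : Law2 μ X p Φ δ) (J : Finset ℕ) (hJ : J ⊆ Φ) :
    μ.real {ω | X ω ∈ J} = J.card * (δ / Φ.card) := by
  rw [real_union μ hX, sum_congr rfl (fun m hm => h.2 m (hJ hm)), sum_const, nsmul_eq_mul]

/-- outside the window -/
theorem win_out (hX : Measurable X) (h : Law2 μ X p Φ δ) (I : Finset ℕ) (hp : p ∉ I) :
    μ.real {ω | X ω ∈ I} ≤ δ * ((Φ.filter (fun m => m ∈ I)).card / Φ.card) := by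
  have h1 : μ.real {ω | X ω ∈ I} ≤ μ.real {ω | X ω ∈ Φ.filter (fun m => m ∈ I)} := by
    apply ENNReal.toReal_mono (measure_ne_top _ _)
    apply measure_mono_ae
    filter_upwards [h.1] with ω hω hI
    change X ω ∈ Φ.filter (fun m => m ∈ I)
    rw [mem_filter]
    rcases hω with h2 | h2
    · change X ω ∈ I at hI
      rw [h2] at hI
      exact absurd hI hp
    · exact ⟨h2, hI⟩
  rw [sum_law μ hX h _ (filter_subset _ _)] at h1
  refine h1.trans (le_of_eq ?_)
  ring

/-- leaving the window -/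
theorem win_in (hX : Measurable X) (h : Law2 μ X p Φ δ) (I : Finset ℕ) (hΦ : 0 < Φ.card) :
    δ * (1 - (Φ.filter (fun m => m ∈ I)).card / Φ.card) ≤ 1 - μ.real {ω | X ω ∈ I} := by
  have hΦr : (0 : ℝ) < Φ.card := by exact_mod_cast hΦ
  have hm : MeasurableSet {ω | X ω ∈ I} := hX (MeasurableSet.of_discrete (s := {m | m ∈ I}))
  rw [← probReal_compl_eq_one_sub hm]
  have h1 : μ.real {ω | X ω ∈ Φ.filter (fun m => ¬ m ∈ I)} ≤ μ.real {ω | X ω ∈ I}ᶜ := by
    apply measureReal_mono
    · intro ω hω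
      change X ω ∈ Φ.filter (fun m => ¬ m ∈ I) at hω
      exact (mem_filter.1 hω).2
    · exact measure_ne_top _ _
  rw [sum_law μ hX h _ (filter_subset _ _)] at h1
  refine le_trans (le_of_eq ?_) h1
  have h2 := card_filter_add_card_filter_not (s := Φ) (fun m => m ∈ I)
  have h3 : ((Φ.filter (fun m => ¬ m ∈ I)).card : ℝ) = Φ.card - (Φ.filter (fun m => m ∈ I)).card := by
    rw [eq_sub_iff_add_eq, add_comm]
    exact_mod_cast h2
  rw [h3]
  field_simp

/-- the probability that a window is avoided -/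
theorem one_low (hξ : ∀ p, Measurable (ξ p)) (hind : iIndepFun ξ μ) (t : ℝ) (ht : 2 < t)
    (Z W : ℕ → ℕ) (hW : Tendsto (fun p : ℕ => (W p : ℝ) / (Real.log p) ^ t) atTop (𝓝 1)) (δ : ℝ) (hδ0 : 0 < δ)
    (hδ1 : δ ≤ 1) (p₀ : ℕ)
    (hlaw : ∀ p, p.Prime → p₀ ≤ p → Law2 μ (ξ p) p (Ph Z W p) δ)
    (c e ρ : ℝ) (hc : 0 < c) (he : 0 < e) (he1 : e ≤ 1 / 10) (hρ : 0 < ρ) :
    ∀ᶠ n : ℕ in atTop, Nice Z W ρ t c n → ∀ F : Finset ℕ, (∀ p ∈ F, p.Prime ∧ p₀ ≤ p) →
      Real.exp (-(cost (-Real.log δ + 10 * e) (δ * ρ * (1 + 10 * e)) c t e n)) ≤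
        μ.real (Av ξ F (Ioc n (n + ⌊c * (Real.log n) ^ 2⌋₊))) := by
  have hlog : Tendsto (fun n : ℕ => Real.log (n : ℝ)) atTop atTop :=
    Real.tendsto_log_atTop.comp tendsto_natCast_atTop_atTop
  have e1 : ∀ᶠ L : ℝ in atTop, ρ * L ^ (2 - t) ≤ e := by
    filter_upwards [(tendsto_rpow_atTop (show 0 < t - 2 by linarith)).eventually_ge_atTop (ρ / e),
      eventually_gt_atTop (0 : ℝ)] with L h1 h2
    rw [div_le_iff₀ he] at h1
    have h3 : L ^ (2 - t) = (L ^ (t - 2))⁻¹ := by
      rw [← Real.rpow_neg h2.le]; congr 1; ring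
    rw [h3, ← div_eq_mul_inv, div_le_iff₀ (by positivity)]
    linarith
  filter_upwards [moves t ht W hW c e hc he he1, hlog.eventually e1] with n hmv hsm hnice F hF
  obtain ⟨hL1, hYn, s1, s2, s3⟩ := hmv
  rw [Av_real μ hξ hind]
  unfold cost
  unfold Nice at hnice
  set L := Real.log n with hL
  set w := ⌊c * L ^ 2⌋₊ with hw
  set Y := YY t e n with hY
  have hL0 : 0 < L := by linarith
  set T := TP.TT n w with hT
  set R := TP.TT (n - Y) Y with hR
  set u : ℝ := -Real.log δ + 10 * e with hu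
  have hL2 : 0 < L ^ (2 - t) := by positivity
  set a₀ : ℝ := δ * (ρ * L ^ (2 - t)) with ha₀
  set r : ℝ := a₀ / (1 - e) with hr
  have hlogδ : Real.log δ ≤ 0 := Real.log_nonpos hδ0.le hδ1
  have hu0 : 0 ≤ u := by rw [hu]; linarith
  have ha₀0 : 0 ≤ a₀ := by positivity
  have ha₀2 : a₀ ≤ e := by
    rw [ha₀]
    calc δ * (ρ * L ^ (2 - t)) ≤ 1 * e := mul_le_mul hδ1 hsm (by positivity) (by norm_num)
      _ = e := one_mul e
  have hr0 : 0 ≤ r := div_nonneg ha₀0 (by linarith)
  have hratio : ∀ q : ℕ, q ≤ n + w → n < q + W q → 0 < (Ph Z W q).card ∧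
      (((Ph Z W q).filter (fun m => m ∈ Ioc n (n + w))).card : ℝ) / (Ph Z W q).card ≤ ρ * L ^ (2 - t) := by
    intro q h1 h2
    obtain ⟨h3, h4⟩ := hnice q h1 h2
    refine ⟨h3, ?_⟩
    rw [div_le_iff₀ (by exact_mod_cast h3)]
    convert h4
  have hterm : ∀ p ∈ F, Real.exp (-((if p ∈ T then u else 0) + (if p ∈ R then r else 0))) ≤
      1 - μ.real {ω | ξ p ω ∈ Ioc n (n + w)} := by
    intro p hp
    obtain ⟨hpp, hp0⟩ := hF p hp
    have hl := hlaw p hpp hp0
    have hzero : p ∉ Ioc n (n + w) → (∀ m ∈ Ph Z W p, m ∉ Ioc n (n + w)) →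
        Real.exp (-((if p ∈ T then u else 0) + (if p ∈ R then r else 0))) ≤
          1 - μ.real {ω | ξ p ω ∈ Ioc n (n + w)} := by
      intro h1 h2
      have h3 := win_out μ (hξ p) hl (Ioc n (n + w)) h1
      rw [filter_false_of_mem h2] at h3
      simp only [card_empty, Nat.cast_zero, zero_div, mul_zero] at h3
      have h4 : (0 : ℝ) ≤ if p ∈ T then u else 0 := by split_ifs <;> [exact hu0; exact le_rfl]
      have h5 : (0 : ℝ) ≤ if p ∈ R then r else 0 := by split_ifs <;> [exact hr0; exact le_rfl]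
      have h6 : Real.exp (-((if p ∈ T then u else 0) + (if p ∈ R then r else 0))) ≤ 1 :=
        Real.exp_le_one_iff.2 (by linarith)
      linarith
    rcases lt_or_ge n p with h | h
    · rcases lt_or_ge (n + w) p with h' | h'
      · apply hzero
        · rw [mem_Ioc]; omega
        · intro m hm
          rw [mem_Ph] at hm
          rw [mem_Ioc]
          omega
      · have hpT : p ∈ T := by
          rw [hT]
          unfold TP.TT
          rw [mem_filter, mem_Ioc]
          exact ⟨⟨h, h'⟩, hpp⟩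
        rw [if_pos hpT]
        obtain ⟨h1, h2⟩ := hratio p h' (by omega)
        have h3 := win_in μ (hξ p) hl (Ioc n (n + w)) h1
        set q₀ : ℝ := (((Ph Z W p).filter (fun m => m ∈ Ioc n (n + w))).card : ℝ) / (Ph Z W p).card with hq₀
        have hq0 : 0 ≤ q₀ := by positivity
        have hq1 : q₀ ≤ e := h2.trans hsm
        have h4 : Real.exp (-u) ≤ δ * (1 - q₀) := by
          have h5 : Real.exp (-u) = δ * Real.exp (-(10 * e)) := by
            rw [hu, neg_add, neg_neg, Real.exp_add, Real.exp_log hδ0]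
          rw [h5]
          apply mul_le_mul_of_nonneg_left _ hδ0.le
          apply exp_le_one_sub _ _ hq0 (by linarith)
          rw [div_le_iff₀ (by linarith)]
          nlinarith only [hq0, hq1, he, he1]
        have h5 : Real.exp (-(u + if p ∈ R then r else 0)) ≤ Real.exp (-u) := by
          apply Real.exp_le_exp.2
          have h2 : (0 : ℝ) ≤ if p ∈ R then r else 0 := by split_ifs <;> [exact hr0; exact le_rfl]
          linarith
        linarith
    · rcases le_or_gt (p + W p) n with h' | h'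
      · apply hzero
        · rw [mem_Ioc]; omega
        · intro m hm
          rw [mem_Ph] at hm
          rw [mem_Ioc]
          omega
      · obtain ⟨h6, h2⟩ := s1 p h h'
        have hpR : p ∈ R := by
          rw [hR]
          unfold TP.TT
          rw [mem_filter, mem_Ioc]
          exact ⟨⟨h6, by omega⟩, hpp⟩
        rw [if_pos hpR]
        have h1 := win_out μ (hξ p) hl (Ioc n (n + w)) (by rw [mem_Ioc]; omega)
        obtain ⟨-, h3⟩ := hratio p (by omega) h'
        have h4 : Real.exp (-r) ≤ 1 - a₀ := by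
          apply exp_le_one_sub _ _ ha₀0 (by linarith)
          rw [hr]
          exact div_le_div_of_nonneg_left ha₀0 (by linarith) (by linarith)
        have h7 : δ * ((((Ph Z W p).filter (fun m => m ∈ Ioc n (n + w))).card : ℝ) / (Ph Z W p).card) ≤ a₀ :=
          mul_le_mul_of_nonneg_left h3 hδ0.le
        have h5 : Real.exp (-((if p ∈ T then u else 0) + r)) ≤ Real.exp (-r) := by
          apply Real.exp_le_exp.2
          have h2 : (0 : ℝ) ≤ if p ∈ T then u else 0 := by split_ifs <;> [exact hu0; exact le_rfl]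
          linarith
        linarith
  refine le_trans ?_ (Finset.prod_le_prod (fun p _ => (Real.exp_pos _).le) hterm)
  rw [← Real.exp_sum]
  apply Real.exp_le_exp.2
  rw [sum_neg_distrib, neg_le_neg_iff, sum_add_distrib, ← sum_filter, ← sum_filter, sum_const, sum_const,
    nsmul_eq_mul, nsmul_eq_mul]
  have c1 : (((F.filter (fun p => p ∈ T)).card : ℕ) : ℝ) ≤ T.card := by
    exact_mod_cast card_le_card (fun p hp => (mem_filter.1 hp).2)
  have c2 : (((F.filter (fun p => p ∈ R)).card : ℕ) : ℝ) ≤ R.card := by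
    exact_mod_cast card_le_card (fun p hp => (mem_filter.1 hp).2)
  have c3 : (((F.filter (fun p => p ∈ T)).card : ℕ) : ℝ) * u ≤ u * T.card := by
    rw [mul_comm u]
    exact mul_le_mul_of_nonneg_right c1 hu0
  have c5 : r ≤ δ * ρ * (1 + 10 * e) * L ^ (2 - t) := by
    rw [hr, div_le_iff₀ (by linarith), ha₀]
    have h1 : 1 ≤ (1 + 10 * e) * (1 - e) := by nlinarith only [he, he1]
    have h2 : 0 ≤ δ * (ρ * L ^ (2 - t)) := ha₀0
    calc δ * (ρ * L ^ (2 - t)) = δ * (ρ * L ^ (2 - t)) * 1 := (mul_one _).symm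
      _ ≤ δ * (ρ * L ^ (2 - t)) * ((1 + 10 * e) * (1 - e)) := mul_le_mul_of_nonneg_left h1 h2
      _ = _ := by ring
  have c6 : (((F.filter (fun p => p ∈ R)).card : ℕ) : ℝ) * r ≤ δ * ρ * (1 + 10 * e) * L ^ (2 - t) * R.card := by
    calc _ ≤ (R.card : ℝ) * (δ * ρ * (1 + 10 * e) * L ^ (2 - t)) := mul_le_mul c2 c5 hr0 (Nat.cast_nonneg _)
      _ = _ := by ring
  linarith

end Pool.Agent.R526.SP
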