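import Pool.Agent.R526.LM.Rows

/-!
Rows with few primes on both sides and few survivors with prime factors outside the modulus.
-/

set_option autoImplicit false

open Finset Filter Topology
open Pool.Agent.H510R2.Maier Pool.Agent.H510R2.Maier.G
open Pool.Agent.H378R2

namespace Pool.Agent.R526.SP

/-- the number of pairs `(q, m)`, `m` coprime to `W` in the window, `q ∣ m` -/
def bad (W Y n : ℕ) (T : Finset ℕ) : ℕ :=
  ∑ q ∈ T, ((Icc (n - Y) (n + Y)).filter (fun m => m.Coprime W ∧ q ∣ m)).card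

theorem cnt_class (N W q : ℕ) (hco : W.Coprime q) (P : ℕ → Prop) [DecidablePred P]
    (hP : ∀ n n', P n → P n' → n ≡ n' [MOD q]) :
    ((Icc 1 N).filter (fun n => n ≡ 0 [MOD W] ∧ P n)).card ≤ N / (W * q) + 1 := by
  have h1 : ((Icc 1 N).filter (fun n => n ≡ 0 [MOD W] ∧ P n)).card ≤ (range (N / (W * q) + 1)).card := by
    apply card_le_card_of_injOn (fun n => n / (W * q))
    · intro n hn
      rw [mem_coe, mem_filter, mem_Icc] at hn
      rw [mem_coe, mem_range]
      exact Nat.lt_succ_of_le (Nat.div_le_div_right hn.1.2)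
    · intro n hn n' hn' hnn
      rw [mem_coe, mem_filter] at hn hn'
      have h2 : n ≡ n' [MOD W] := hn.2.1.trans hn'.2.1.symm
      have h3 : n ≡ n' [MOD q] := hP n n' hn.2.2 hn'.2.2
      have h4 : n ≡ n' [MOD W * q] := (Nat.modEq_and_modEq_iff_modEq_mul hco).1 ⟨h2, h3⟩
      simp only at hnn
      have h5 := Nat.div_add_mod n (W * q)
      have h6 := Nat.div_add_mod n' (W * q)
      have h7 : n % (W * q) = n' % (W * q) := h4
      rw [← h5, ← h6, hnn, h7]
  rwa [card_range] at h1

/-- one divisor -/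
theorem bad_one (W Y n q : ℕ) (hYn : Y ≤ n) (hn : n ≡ 0 [MOD W]) :
    ((Icc (n - Y) (n + Y)).filter (fun m => m.Coprime W ∧ q ∣ m)).card ≤
      (∑ i ∈ (Icc 1 Y).filter (fun h => (0 + h).Coprime W), (if q ∣ n + i then 1 else 0)) +
      (∑ i ∈ (Icc 1 Y).filter (fun h => (0 + h).Coprime W), (if i ≤ n ∧ q ∣ n - i then 1 else 0)) +
      (if q ∣ n then 1 else 0) := by
  rw [← card_filter, ← card_filter]
  set C := (Icc 1 Y).filter (fun h => (0 + h).Coprime W) with hC
  obtain ⟨c, hc⟩ := (Nat.modEq_zero_iff_dvd).1 hn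
  have h1 : (Icc (n - Y) (n + Y)).filter (fun m => m.Coprime W ∧ q ∣ m) ⊆
      ((C.filter (fun i => q ∣ n + i)).image (fun i => n + i) ∪
        (C.filter (fun i => i ≤ n ∧ q ∣ n - i)).image (fun i => n - i)) ∪ ({n} : Finset ℕ).filter (fun m => q ∣ m) := by
    intro m hm
    rw [mem_filter, mem_Icc] at hm
    obtain ⟨⟨h2, h3⟩, h4, h5⟩ := hm
    rw [mem_union, mem_union, mem_image, mem_image, mem_filter, mem_singleton]
    rcases lt_trichotomy m n with h6 | h6 | h6
    · left; right
      refine ⟨n - m, ?_, by omega⟩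
      rw [mem_filter, hC, mem_filter, mem_Icc]
      refine ⟨⟨⟨by omega, by omega⟩, ?_⟩, by omega, ?_⟩
      · rw [zero_add]
        have h7 : n - m + m = W * c := by omega
        have h8 : Nat.Coprime (n - m) W ↔ Nat.Coprime m W := by
          constructor
          · intro h
            exact h4
          · intro h
            rw [Nat.coprime_iff_gcd_eq_one] at h ⊢
            have h9 : Nat.gcd (n - m) W ∣ Nat.gcd m W := by
              apply Nat.dvd_gcd _ (Nat.gcd_dvd_right _ _)
              have h10 : Nat.gcd (n - m) W ∣ (n - m) + m := by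
                rw [h7]
                exact Dvd.dvd.mul_right (Nat.gcd_dvd_right _ _) _
              exact (Nat.dvd_add_right (Nat.gcd_dvd_left _ _)).1 h10
            rw [h] at h9
            exact Nat.dvd_one.1 h9
        exact h8.2 h4
      · have h7 : n - (n - m) = m := by omega
        rw [h7]
        exact h5
    · right
      exact ⟨h6, h5⟩
    · left; left
      refine ⟨m - n, ?_, by omega⟩
      rw [mem_filter, hC, mem_filter, mem_Icc]
      refine ⟨⟨⟨by omega, by omega⟩, ?_⟩, ?_⟩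
      · rw [zero_add]
        have h7 : m = W * c + (m - n) := by omega
        rw [h7] at h4
        rwa [Nat.coprime_mul_left_add_left] at h4
      · have h7 : n + (m - n) = m := by omega
        rw [h7]
        exact h5
  refine (card_le_card h1).trans ((card_union_le _ _).trans ?_)
  apply Nat.add_le_add
  · exact (card_union_le _ _).trans (Nat.add_le_add card_image_le card_image_le)
  · rw [filter_singleton]
    split_ifs <;> simp

/-- the sum over the rows -/
theorem bad_sum (X : ℝ) (hX : 0 < X) (W Y : ℕ) (hW : 0 < W) (hY : (Y : ℝ) ≤ X) (T : Finset ℕ)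
    (hT : ∀ q ∈ T, 0 < q ∧ W.Coprime q ∧ (W : ℝ) * q ≤ X) (N1 : ℝ) (hN : X / 40 / W ≤ N1) :
    ∑ n ∈ Icc 1 ⌊3 * X⌋₊, nu X W 0 n * (bad W Y n T : ℝ) ≤
      160 * (2 * VV W 0 Y + 1) * (∑ q ∈ T, (1 : ℝ) / q) * N1 := by
  classical
  set N := ⌊3 * X⌋₊ with hNd
  have hNr : (N : ℝ) ≤ 3 * X := Nat.floor_le (by linarith)
  set C := (Icc 1 Y).filter (fun h => (0 + h).Coprime W) with hC
  have hCV : (C.card : ℝ) = VV W 0 Y := by
    rw [hC]
    unfold VV
    norm_cast
  have hW0 : (0 : ℝ) < W := by exact_mod_cast hW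
  -- a single class
  have hcls : ∀ q ∈ T, ∀ (P : ℕ → Prop) [DecidablePred P], (∀ n n', P n → P n' → n ≡ n' [MOD q]) →
      ∑ n ∈ Icc 1 N, nu X W 0 n * (if P n then (1 : ℝ) else 0) ≤ 160 * (1 / q) * N1 := by
    intro q hq P _ hP
    obtain ⟨hq0, hco, hWq⟩ := hT q hq
    have hq0r : (0 : ℝ) < q := by exact_mod_cast hq0
    have h1 : ∑ n ∈ Icc 1 N, nu X W 0 n * (if P n then (1 : ℝ) else 0) ≤
        (((Icc 1 N).filter (fun n => n ≡ 0 [MOD W] ∧ P n)).card : ℝ) := by
      rw [card_filter]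
      push_cast
      apply sum_le_sum
      intro n _
      by_cases h1 : P n
      · rw [if_pos h1, mul_one]
        by_cases h2 : n ≡ 0 [MOD W]
        · rw [if_pos ⟨h2, h1⟩]
          exact nu_le_one X W 0 n
        · rw [if_neg (fun h => h2 h.1)]
          unfold nu
          rw [if_neg h2]
      · rw [if_neg h1, mul_zero]
        split_ifs <;> norm_num
    have h2 := cnt_class N W q hco P hP
    have h3 : (((Icc 1 N).filter (fun n => n ≡ 0 [MOD W] ∧ P n)).card : ℝ) ≤ N / (W * q) + 1 := by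
      calc (((Icc 1 N).filter (fun n => n ≡ 0 [MOD W] ∧ P n)).card : ℝ) ≤ ((N / (W * q) + 1 : ℕ) : ℝ) := by
            exact_mod_cast h2
        _ ≤ _ := by
            push_cast
            have : ((N / (W * q) : ℕ) : ℝ) ≤ (N : ℝ) / ((W * q : ℕ) : ℝ) := Nat.cast_div_le
            push_cast at this
            linarith
    have hWq0 : (0 : ℝ) < W * q := by positivity
    calc _ ≤ (N : ℝ) / (W * q) + 1 := h1.trans h3
      _ ≤ 3 * X / (W * q) + X / (W * q) := by
          apply add_le_add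
          · exact div_le_div_of_nonneg_right hNr hWq0.le
          · rw [le_div_iff₀ hWq0, one_mul]
            exact hWq
      _ = 160 * (1 / q) * (X / 40 / W) := by
          field_simp
          ring
      _ ≤ _ := mul_le_mul_of_nonneg_left hN (by positivity)
  -- termwise
  have h1 : ∀ n ∈ Icc 1 N, nu X W 0 n * (bad W Y n T : ℝ) ≤
      ∑ q ∈ T, ((∑ i ∈ C, nu X W 0 n * (if q ∣ n + i then (1 : ℝ) else 0)) +
        (∑ i ∈ C, nu X W 0 n * (if i ≤ n ∧ q ∣ n - i then (1 : ℝ) else 0)) +
        nu X W 0 n * (if q ∣ n then (1 : ℝ) else 0)) := by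
    intro n hn
    by_cases hmod : n ≡ 0 [MOD W]
    · by_cases hnX : X < n
      · have hYn : Y ≤ n := by
          have : (Y : ℝ) ≤ n := by linarith
          exact_mod_cast this
        unfold bad
        push_cast
        rw [mul_sum]
        apply sum_le_sum
        intro q _
        have h2 := bad_one W Y n q hYn hmod
        have h3 : (((Icc (n - Y) (n + Y)).filter (fun m => m.Coprime W ∧ q ∣ m)).card : ℝ) ≤
            (∑ i ∈ C, (if q ∣ n + i then (1 : ℝ) else 0)) +
            (∑ i ∈ C, (if i ≤ n ∧ q ∣ n - i then (1 : ℝ) else 0)) + (if q ∣ n then (1 : ℝ) else 0) := by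
          exact_mod_cast h2
        rw [← mul_sum, ← mul_sum, ← mul_add, ← mul_add]
        exact mul_le_mul_of_nonneg_left h3 (nu_nonneg _ _ _ _)
      · rw [nu_eq_zero hX (by tauto), zero_mul]
        simp
    · have : nu X W 0 n = 0 := by
        unfold nu
        rw [if_neg hmod]
      rw [this, zero_mul]
      simp
  refine (sum_le_sum h1).trans ?_
  rw [sum_comm, mul_sum, sum_mul]
  apply sum_le_sum
  intro q hq
  rw [sum_add_distrib, sum_add_distrib, sum_comm, sum_comm (s := Icc 1 N)]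
  have h2 : ∑ i ∈ C, ∑ n ∈ Icc 1 N, nu X W 0 n * (if q ∣ n + i then (1 : ℝ) else 0) ≤
      ∑ _i ∈ C, 160 * (1 / q) * N1 := by
    apply sum_le_sum
    intro i _
    apply hcls q hq (fun n => q ∣ n + i)
    intro n n' hn hn'
    have h3 : n + i ≡ n' + i [MOD q] := ((Nat.modEq_zero_iff_dvd).2 hn).trans ((Nat.modEq_zero_iff_dvd).2 hn').symm
    exact Nat.ModEq.add_right_cancel' i h3
  have h3 : ∑ i ∈ C, ∑ n ∈ Icc 1 N, nu X W 0 n * (if i ≤ n ∧ q ∣ n - i then (1 : ℝ) else 0) ≤
      ∑ _i ∈ C, 160 * (1 / q) * N1 := by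
    apply sum_le_sum
    intro i _
    apply hcls q hq (fun n => i ≤ n ∧ q ∣ n - i)
    rintro n n' ⟨hin, hn⟩ ⟨hin', hn'⟩
    have h3 : n - i ≡ n' - i [MOD q] := ((Nat.modEq_zero_iff_dvd).2 hn).trans ((Nat.modEq_zero_iff_dvd).2 hn').symm
    have h4 := h3.add_right i
    rwa [Nat.sub_add_cancel hin, Nat.sub_add_cancel hin'] at h4
  have h4 : ∑ n ∈ Icc 1 N, nu X W 0 n * (if q ∣ n then (1 : ℝ) else 0) ≤ 160 * (1 / q) * N1 := by
    apply hcls q hq (fun n => q ∣ n)
    intro n n' hn hn'
    exact ((Nat.modEq_zero_iff_dvd).2 hn).trans ((Nat.modEq_zero_iff_dvd).2 hn').symm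
  rw [sum_const, nsmul_eq_mul, hCV] at h2 h3
  calc _ ≤ (VV W 0 Y : ℝ) * (160 * (1 / q) * N1) + (VV W 0 Y : ℝ) * (160 * (1 / q) * N1) + 160 * (1 / q) * N1 :=
        add_le_add (add_le_add h2 h3) h4
    _ = _ := by ring

end Pool.Agent.R526.SP
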