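import Pool.Agent.R526.SP.Fin

set_option autoImplicit false

/-! # The first occurrence of runs -/

namespace Pool.Agent.R526.SP

open MeasureTheory ProbabilityTheory Filter Finset Topology Pool.Agent.R526.TP Pool.Agent.R526.RS
open Pool.Agent.R529.BU (ww ww_pos om om_ge)

/-- `b ∈ S` is preceded by an element `a ∈ S` and a run of at least `g` integers outside `S` between them -/
def RunEnd (S : Set ℕ) (g b : ℕ) : Prop :=
  b ∈ S ∧ ∃ a ∈ S, a + g < b ∧ ∀ m, a < m → m < b → m ∉ S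

theorem shanks_of (S : Set ℕ) (C : ℝ) (hC : 0 < C)
    (h : ∀ ε : ℝ, 0 < ε → ∀ᶠ x : ℝ in atTop, ∃ a b : ℕ, a ∈ S ∧ b ∈ S ∧ a < b ∧ (b : ℝ) ≤ x ∧
      (∀ m ∈ S, ¬ (a < m ∧ m < b)) ∧ (1 / C - ε) * (Real.log x) ^ 2 ≤ (b : ℝ) - a) :
    ∀ ε : ℝ, 0 < ε → ∀ᶠ g : ℕ in atTop, ∃ b : ℕ, IsLeast {b | RunEnd S g b} b ∧
      Real.log b ≤ (Real.sqrt C + ε) * Real.sqrt g := by
  intro ε hε
  have hs : 0 < Real.sqrt C := Real.sqrt_pos.2 hC
  set A : ℝ := Real.sqrt C + ε with hA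
  set B : ℝ := Real.sqrt C + ε / 2 with hB
  have hA0 : 0 < A := by positivity
  have hB0 : 0 < B := by positivity
  have hCB : C < B ^ 2 := by
    have h1 : C = Real.sqrt C ^ 2 := (Real.sq_sqrt hC.le).symm
    rw [h1]
    exact pow_lt_pow_left₀ (by rw [hB]; linarith) hs.le (by norm_num)
  have hε₁ : 0 < 1 / C - 1 / B ^ 2 := by
    have := one_div_lt_one_div_of_lt hC hCB
    linarith
  have h1 := h (1 / C - 1 / B ^ 2) hε₁
  have hr : 0 < A ^ 2 / B ^ 2 - 1 := by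
    have h2 : B ^ 2 < A ^ 2 := pow_lt_pow_left₀ (by rw [hB, hA]; linarith) hB0.le (by norm_num)
    have h3 : 1 < A ^ 2 / B ^ 2 := by
      rw [one_lt_div (by positivity)]
      exact h2
    linarith
  have ht : Tendsto (fun g : ℕ => Real.exp (A * Real.sqrt g)) atTop atTop := by
    apply Real.tendsto_exp_atTop.comp
    apply Tendsto.const_mul_atTop hA0
    exact Real.tendsto_sqrt_atTop.comp tendsto_natCast_atTop_atTop
  filter_upwards [ht.eventually h1, tendsto_natCast_atTop_atTop.eventually_ge_atTop (1 / (A ^ 2 / B ^ 2 - 1))]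
    with g h2 h3
  obtain ⟨a, b, ha, hb, hab, hbx, hgap, hlen⟩ := h2
  rw [div_le_iff₀ hr] at h3
  rw [Real.log_exp, mul_pow, Real.sq_sqrt (Nat.cast_nonneg g)] at hlen
  have h4 : (1 / C - (1 / C - 1 / B ^ 2)) * (A ^ 2 * g) = A ^ 2 / B ^ 2 * g := by
    field_simp
    ring
  rw [h4] at hlen
  have h5 : (g : ℝ) + 1 ≤ b - a := by linarith
  have h6 : a + g < b := by
    have h7 : ((a + g + 1 : ℕ) : ℝ) ≤ b := by
      push_cast
      linarith
    have h8 : a + g + 1 ≤ b := by exact_mod_cast h7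
    omega
  have hmem : RunEnd S g b := ⟨hb, a, ha, h6, fun m hm1 hm2 hm => hgap m hm ⟨hm1, hm2⟩⟩
  classical
  have hex : ∃ b, RunEnd S g b := ⟨b, hmem⟩
  refine ⟨Nat.find hex, ⟨Nat.find_spec hex, fun m hm => Nat.find_min' hex hm⟩, ?_⟩
  have h7 : Nat.find hex ≤ b := Nat.find_min' hex hmem
  have h8 : 0 < Nat.find hex := by
    obtain ⟨-, a', -, h9, -⟩ := Nat.find_spec hex
    omega
  have h9 : (0 : ℝ) < (Nat.find hex : ℕ) := by exact_mod_cast h8
  have h10 : ((Nat.find hex : ℕ) : ℝ) ≤ Real.exp (A * Real.sqrt g) := by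
    have : ((Nat.find hex : ℕ) : ℝ) ≤ b := by exact_mod_cast h7
    linarith
  have h11 := Real.log_le_log h9 h10
  rwa [Real.log_exp] at h11

variable {Ω : Type} [MeasurableSpace Ω] (μ : Measure Ω) [IsProbabilityMeasure μ] {ξ : ℕ → Ω → ℕ}

theorem shanks (hξ : ∀ p, Measurable (ξ p)) (hind : iIndepFun ξ μ) (t : ℝ) (ht : 2 < t)
    (Z W : ℕ → ℕ) (hW : Tendsto (fun p : ℕ => (W p : ℝ) / (Real.log p) ^ t) atTop (𝓝 1)) (β : ℝ)
    (hZ : Tendsto (fun p : ℕ => Real.log (Z p) / Real.log (Real.log p)) atTop (𝓝 β)) (δ : ℝ) (hδ0 : 0 < δ)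
    (hδ1 : δ ≤ 1) (p₀ : ℕ)
    (hlaw : ∀ p, p.Prime → p₀ ≤ p → Law2 μ (ξ p) p (Ph Z W p) δ)
    (hβ : 0 < β) (hβ1 : β ≤ 1) :
    ∀ᵐ ω ∂μ, ∀ ε : ℝ, 0 < ε → ∀ᶠ g : ℕ in atTop, ∃ b : ℕ,
      IsLeast {b | RunEnd {m : ℕ | ∃ p : ℕ, p.Prime ∧ ξ p ω = m} g b} b ∧
      Real.log b ≤ (Real.sqrt ((-Real.log δ + δ) * ww 2 β) + ε) * Real.sqrt g := by
  have hw2 : 0 < ww 2 β := ww_pos 2 β hβ (by linarith)
  have hlδ : 0 ≤ -Real.log δ := by
    have : Real.log δ ≤ 0 := Real.log_nonpos hδ0.le hδ1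
    linarith
  have hD0 : 0 < (-Real.log δ + δ) * ww 2 β := by positivity
  have hall : ∀ᵐ ω ∂μ, ∀ m : ℕ, ∀ᶠ x : ℝ in atTop, ∃ a b : ℕ, (∃ p : ℕ, p.Prime ∧ ξ p ω = a) ∧
      (∃ p : ℕ, p.Prime ∧ ξ p ω = b) ∧ a < b ∧ (b : ℝ) ≤ x ∧
      (∀ m : ℕ, (∃ p : ℕ, p.Prime ∧ ξ p ω = m) → ¬ (a < m ∧ m < b)) ∧
      (1 / ((-Real.log δ + δ) * ww 2 β) - 1 / ((m : ℝ) + 1)) * (Real.log x) ^ 2 ≤ (b : ℝ) - a := by
    rw [ae_all_iff]
    intro m
    exact moved_eps μ hξ hind t ht Z W hW β hZ δ hδ0 hδ1 p₀ hlaw hβ hβ1 (1 / ((m : ℝ) + 1)) (by positivity)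
  filter_upwards [hall] with ω hω
  apply shanks_of _ _ hD0
  intro ε hε
  obtain ⟨m, hm⟩ := exists_nat_one_div_lt hε
  filter_upwards [hω m] with x hx
  obtain ⟨a, b, h1, h2, h3, h4, h5, h6⟩ := hx
  refine ⟨a, b, h1, h2, h3, h4, fun m hm => h5 m hm, le_trans ?_ h6⟩
  apply mul_le_mul_of_nonneg_right _ (sq_nonneg _)
  linarith

theorem log53 : Real.log (5 / 3) ≤ 0.511 := by
  rw [Real.log_le_iff_le_exp (by norm_num)]
  have h := Real.sum_le_exp_of_nonneg (show (0 : ℝ) ≤ 0.511 by norm_num) 8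
  refine le_trans ?_ h
  norm_num [Finset.sum_range_succ, Nat.factorial]

theorem const_lt (δ : ℝ) (h1 : 3 / 5 ≤ δ) (h2 : δ ≤ 1) :
    Real.exp Real.eulerMascheroniConstant * (1 / 2) * (δ + Real.log (1 / δ)) < 1 := by
  have hδ0 : 0 < δ := by linarith
  have h3 : (0.559 : ℝ) < Real.exp (-Real.eulerMascheroniConstant) := by
    refine exp_low.trans ?_
    exact Real.exp_lt_exp.2 (by have := gamma_lt; linarith)
  have h4 : Real.exp Real.eulerMascheroniConstant * Real.exp (-Real.eulerMascheroniConstant) = 1 := by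
    rw [← Real.exp_add, add_neg_cancel, Real.exp_zero]
  have h5 : δ + Real.log (1 / δ) ≤ 3 / 5 + Real.log (5 / 3) := by
    have h6 := Real.log_le_sub_one_of_pos (show 0 < 3 / 5 / δ by positivity)
    have h7 : Real.log (3 / 5 / δ) = Real.log (1 / δ) - Real.log (5 / 3) := by
      rw [← Real.log_div (by positivity) (by norm_num)]
      congr 1
      field_simp
    rw [h7] at h6
    have h8 : 3 / 5 / δ - 1 ≤ 3 / 5 - δ := by
      rw [div_sub_one hδ0.ne', div_le_iff₀ hδ0]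
      nlinarith only [h1, h2]
    linarith
  have h6 := log53
  have hE := Real.exp_pos Real.eulerMascheroniConstant
  have h7 : δ + Real.log (1 / δ) < 2 * Real.exp (-Real.eulerMascheroniConstant) := by linarith
  calc Real.exp Real.eulerMascheroniConstant * (1 / 2) * (δ + Real.log (1 / δ)) <
        Real.exp Real.eulerMascheroniConstant * (1 / 2) * (2 * Real.exp (-Real.eulerMascheroniConstant)) :=
        mul_lt_mul_of_pos_left h7 (by positivity)
    _ = Real.exp Real.eulerMascheroniConstant * Real.exp (-Real.eulerMascheroniConstant) := by ring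
    _ = 1 := h4

end Pool.Agent.R526.SP
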