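import Pool.Agent.R526.SP.Rows

/-!
Many rows with few primes on both sides and few survivors with prime factors outside the modulus.
-/

set_option autoImplicit false

open Finset Filter Topology
open Pool.Agent.H510R2.Maier Pool.Agent.H510R2.Maier.G
open Pool.Agent.H378R2
open Pool.Agent.R529.BU (rows_sums)
open Pool.Agent.R526.LM (VV_left ev_small2 left_sum)

namespace Pool.Agent.R526.SP

theorem ev_pow_exp (k : ℕ) : ∀ᶠ X : ℝ in atTop, Real.exp (Real.log X / 700) * (Real.log X) ^ k ≤ X := by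
  have h1 : Tendsto (fun L : ℝ => L ^ k * Real.exp (-(1 / 2) * L)) atTop (𝓝 0) := by
    have := Real.tendsto_pow_mul_exp_neg_atTop_nhds_zero k
    have h2 := this.comp (tendsto_id.const_mul_atTop (show (0 : ℝ) < 1 / 2 by norm_num))
    have h3 := h2.const_mul ((2 : ℝ) ^ k)
    rw [mul_zero] at h3
    refine h3.congr fun L => ?_
    simp only [Function.comp, id]
    rw [show -(1 / 2) * L = -(1 / 2 * L) by ring, ← mul_assoc, ← mul_pow]
    congr 2
    ring
  filter_upwards [Real.tendsto_log_atTop.eventually (h1.eventually_lt_const one_pos), eventually_ge_atTop (4 : ℝ)] with X h3 hX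
  have hX0 : 0 < X := by linarith
  set L := Real.log X with hL
  have hL0 : 0 ≤ L := Real.log_nonneg (by linarith)
  have hX2 : X = Real.exp L := by rw [hL, Real.exp_log hX0]
  have h7 : Real.exp (L / 700) ≤ Real.exp (L / 2) := Real.exp_le_exp.2 (by linarith)
  have h9 : Real.exp (-(1 / 2) * L) * Real.exp L = Real.exp (L / 2) := by
    rw [← Real.exp_add]; congr 1; ring
  calc Real.exp (L / 700) * L ^ k ≤ Real.exp (L / 2) * L ^ k := mul_le_mul_of_nonneg_right h7 (pow_nonneg hL0 k)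
    _ = (L ^ k * Real.exp (-(1 / 2) * L)) * Real.exp L := by rw [mul_assoc, h9, mul_comm]
    _ ≤ 1 * Real.exp L := mul_le_mul_of_nonneg_right h3.le (Real.exp_pos _).le
    _ = X := by rw [one_mul, hX2]

set_option maxHeartbeats 4000000 in
theorem three_windows (k : ℕ) (ε : ℝ) (hε : 0 < ε) (hε1 : ε ≤ 1) (Z : ℕ) : ∃ X0 : ℝ, ∀ X : ℝ, X0 ≤ X →
    ∃ (ps : ℕ) (S : Finset ℕ), GoodP Z ps ∧ GoodS X S ∧
      ∀ (D α β A₁ A₂ κ : ℝ) (g Y : ℕ) (T : Finset ℕ), 0 < D → (g : ℝ) ≤ (Real.log X) ^ k → (Y : ℝ) ≤ (Real.log X) ^ k →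
        0 < α → 0 < β → 0 < κ →
        ((VV (WD X D S ps) 0 g : ℝ) + 81) / BE (PD X D S ps) ≤ A₁ →
        ((VV (WD X D S ps) 0 Y : ℝ) + 81) / BE (PD X D S ps) ≤ A₂ →
        (∀ q ∈ T, q.Prime ∧ q ∉ PD X D S ps ∧ (q : ℝ) ≤ (Real.log X) ^ k) →
        1000 * ∑ q ∈ T, (1 : ℝ) / q ≤ κ * ε →
        ε / 200 * X * Real.exp (-(3 / 2 * (Real.log X / D))) ≤
          ((rowset X (fun n => n ≡ 0 [MOD WD X D S ps] ∧
            (Real.log X - 1) * (α * cnt n g + β * cnt (n - Y) Y) ≤ (1 + ε) ^ 2 * (α * A₁ + β * A₂) ∧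
            (bad (WD X D S ps) Y n T : ℝ) ≤ κ * (2 * VV (WD X D S ps) 0 Y + 1))).card : ℝ) := by
  obtain ⟨X0, hX0⟩ := rows_sums k (ε / 2) (by positivity) (by linarith) Z
  obtain ⟨X1, hX1⟩ := eventually_atTop.1 ((ev_small2 k).and ((Pool.Agent.R529.BU.ev_pow_le k).and (ev_pow_exp k)))
  refine ⟨max (max X0 X1) 40, fun X hX => ?_⟩
  have hX40 : 40 ≤ X := (le_max_right _ _).trans hX
  have hXpos : 0 < X := by linarith
  obtain ⟨hsm, hpk, hexp⟩ := hX1 X ((le_max_right _ _).trans ((le_max_left _ _).trans hX))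
  obtain ⟨ps, S, hps, hS, hr⟩ := hX0 X ((le_max_left _ _).trans ((le_max_left _ _).trans hX))
  refine ⟨ps, S, hps, hS, fun D α β A₁ A₂ κ g Y T hD hg hY hα hβ hκ hVA hVB hT hTs => ?_⟩
  obtain ⟨-, r2, r3, -⟩ := hr D 0 g hg
  obtain ⟨-, r4, -, -⟩ := hr D (WD X D S ps * Y - Y) Y hY
  obtain ⟨W2, hW2, hco, hWprod, hWDle⟩ := pd_decomp X D S ps
  have hWexp : (WD X D S ps : ℝ) ≤ Real.exp (Real.log X / 700) := hWDle.trans (WW_le X (by linarith) S ps)
  have hWn : 0 < WD X D S ps := WD_pos X D S ps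
  have hleft := VV_left (WD X D S ps) Y hWn
  have hls := left_sum X hX40 (WD X D S ps) Y hWn (hY.trans hpk)
  have hTc : ∀ q ∈ T, 0 < q ∧ (WD X D S ps).Coprime q ∧ (WD X D S ps : ℝ) * q ≤ X := by
    intro q hq
    obtain ⟨h1, h2, h3⟩ := hT q hq
    refine ⟨h1.pos, ?_, ?_⟩
    · unfold WD
      apply Nat.Coprime.prod_left
      intro p hp
      exact (Nat.coprime_primes (PD_prime hp) h1).2 (fun h => h2 (h ▸ hp))
    · calc (WD X D S ps : ℝ) * q ≤ Real.exp (Real.log X / 700) * (Real.log X) ^ k := by gcongr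
        _ ≤ X := hexp
  set W := WD X D S ps with hW
  set B := BE (PD X D S ps) with hB
  have hPp : ∀ p ∈ PD X D S ps, p.Prime := fun p hp => PD_prime hp
  have hB0 : 0 < B := BE_pos hPp
  have hW0 : (0 : ℝ) < W := by exact_mod_cast hWn
  have hφ : (W.totient : ℝ) = W * B := Pool.Agent.H510R2.Maier.totient_prod _ hPp
  have hφW : (W.totient : ℝ) ≤ W := by exact_mod_cast Nat.totient_le W
  have hφ0 : (0 : ℝ) < W.totient := by exact_mod_cast Nat.totient_pos.2 hWn
  have hM1 := MPhi_ge X hX40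
  set M := MPhi X with hM
  have hM0 : 0 < M := by linarith
  set V : ℝ := (VV W 0 g : ℝ) with hV
  have hV0 : 0 ≤ V := Nat.cast_nonneg _
  set U : ℝ := (VV W 0 Y : ℝ) with hU
  have hU0 : 0 ≤ U := Nat.cast_nonneg _
  have hleft' : (VV W (W * Y - Y) Y : ℝ) ≤ U + 1 := by
    rw [hU]
    exact_mod_cast hleft
  set N1 := ∑ n ∈ Icc 1 ⌊3 * X⌋₊, nu X W 0 n with hN1
  set A := (V + 81) / B with hA
  set A' := (U + 81) / B with hA'
  have hA0 : 0 < A := by positivity
  have hA'0 : 0 < A' := by positivity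
  have hMW : 0 < M / W := by positivity
  have hMφ : 0 < M / W.totient := by positivity
  have key : ∀ v : ℝ, 0 ≤ v → (1 + ε / 2 / 4) * ((v + 81) * (M / W.totient)) ≤ (1 + ε / 2) * ((v + 81) / B) * N1 := by
    intro v hv
    calc (1 + ε / 2 / 4) * ((v + 81) * (M / W.totient))
        = (1 + ε / 2 / 4) * ((v + 81) / B) * (M / W) := by
          rw [hφ]; field_simp
      _ ≤ ((1 + ε / 2) * (1 - ε / 2 / 4)) * ((v + 81) / B) * (M / W) := by
          have q1 : 1 + ε / 2 / 4 ≤ (1 + ε / 2) * (1 - ε / 2 / 4) := by nlinarith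
          exact mul_le_mul_of_nonneg_right (mul_le_mul_of_nonneg_right q1 (by positivity)) hMW.le
      _ = (1 + ε / 2) * ((v + 81) / B) * ((1 - ε / 2 / 4) * (M / W)) := by ring
      _ ≤ (1 + ε / 2) * ((v + 81) / B) * N1 := by
          apply mul_le_mul_of_nonneg_left r3
          positivity
  have hT1 : ∑ n ∈ Icc 1 ⌊3 * X⌋₊, nu X W 0 n * thw n g ≤ (1 + ε / 2) * A * N1 := by
    refine r2.trans (le_trans ?_ (key V hV0))
    have q0 : 0 ≤ ε * (M / W.totient) := by positivity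
    have q1 : (1 + ε / 2 / 4) * (V * (M / W.totient)) + 40 * (M / W.totient) + (41 * (M / W.totient) + 81 / 8 * (ε * (M / W.totient))) =
        (1 + ε / 2 / 4) * ((V + 81) * (M / W.totient)) := by ring
    rw [← q1]
    linarith only [q0, hMφ]
  have hT2 : ∑ n ∈ Icc 1 ⌊3 * X⌋₊, nu X W 0 n * thw (n - Y) Y ≤ (1 + ε / 2) * A' * N1 := by
    refine hls.trans (le_trans ?_ (key U hU0))
    have e1 : 6 * ((Y : ℝ) * (Y * Real.log (4 * X))) / 2 ≤ M / W.totient := by
      have h40 : 0 ≤ Real.log (4 * X) := Real.log_nonneg (by linarith)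
      have hY0 : (0 : ℝ) ≤ Y := Nat.cast_nonneg Y
      have hLk : 0 ≤ Real.log X ^ k := pow_nonneg (Real.log_nonneg (by linarith)) k
      have b1 : (Y : ℝ) * (Y * Real.log (4 * X)) ≤ (Real.log X) ^ k * ((Real.log X) ^ k * Real.log (4 * X)) := by
        gcongr
      have b2 : X / 20 / Real.exp (Real.log X / 700) ≤ M / W.totient := by
        apply div_le_div₀ hM0.le hM1 hφ0 (hφW.trans hWexp)
      have b3 : 0 ≤ (Y : ℝ) * (Y * Real.log (4 * X)) := by positivity
      linarith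
    have e2 : (1 + ε / 2 / 4) * ((VV W (W * Y - Y) Y : ℝ) * (M / W.totient)) ≤
        (1 + ε / 2 / 4) * ((U + 1) * (M / W.totient)) := by gcongr
    have q0 : 0 ≤ ε * (M / W.totient) := by positivity
    have q1 : (1 + ε / 2 / 4) * ((U + 1) * (M / W.totient)) + 80 * (M / W.totient) + 10 * (ε * (M / W.totient)) =
        (1 + ε / 2 / 4) * ((U + 81) * (M / W.totient)) := by ring
    rw [← q1]
    linarith only [q0, hMφ, e1, e2, r4]
  have hN1low : X / 40 / W ≤ N1 := by
    refine le_trans ?_ r3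
    have h3 : X / 20 / W ≤ M / W := div_le_div_of_nonneg_right hM1 hW0.le
    have h4 : 0 < X / 20 / W := by positivity
    have h5 : X / 40 / W = 1 / 2 * (X / 20 / W) := by ring
    rw [h5]
    exact mul_le_mul (by linarith) h3 h4.le (by linarith)
  have hN10 : 0 < N1 := lt_of_lt_of_le (by positivity) hN1low
  have hT3 := bad_sum X hXpos W Y hWn (by linarith [hY.trans hpk]) T hTc N1 hN1low
  set σ := ∑ q ∈ T, (1 : ℝ) / q with hσ
  have hσ0 : 0 ≤ σ := Finset.sum_nonneg fun q _ => by positivity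
  set R : ℝ := 2 * U + 1 with hR
  have hR0 : 0 < R := by positivity
  set H : ℝ := α * A + β * A' with hH
  have hH0 : 0 < H := by positivity
  set lam : ℝ := 4 * H / (κ * R) with hlam
  have hlam0 : 0 < lam := by positivity
  have hsumT : ∑ n ∈ Icc 1 ⌊3 * X⌋₊, nu X W 0 n * (α * thw n g + β * thw (n - Y) Y) ≤
      (1 + ε / 2) * H * N1 := by
    have h1 : ∑ n ∈ Icc 1 ⌊3 * X⌋₊, nu X W 0 n * (α * thw n g + β * thw (n - Y) Y) =
        α * ∑ n ∈ Icc 1 ⌊3 * X⌋₊, nu X W 0 n * thw n g +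
          β * ∑ n ∈ Icc 1 ⌊3 * X⌋₊, nu X W 0 n * thw (n - Y) Y := by
      rw [Finset.mul_sum, Finset.mul_sum, ← Finset.sum_add_distrib]
      apply Finset.sum_congr rfl
      intro n _
      ring
    rw [h1]
    have h2 := mul_le_mul_of_nonneg_left hT1 hα.le
    have h3 := mul_le_mul_of_nonneg_left hT2 hβ.le
    calc _ ≤ α * ((1 + ε / 2) * A * N1) + β * ((1 + ε / 2) * A' * N1) := add_le_add h2 h3
      _ = _ := by rw [hH]; ring
  set G : ℕ → ℝ := fun n => (α * thw n g + β * thw (n - Y) Y + lam * (bad W Y n T : ℝ)) +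
    (if n ≡ 0 [MOD W] then 0 else (1 + ε) * ((1 + ε) * H) + 1) with hG
  have hG0 : ∀ n, 0 ≤ G n := by
    intro n
    have h1 := thw_nonneg n g
    have h2 := thw_nonneg (n - Y) Y
    have h3 : (0 : ℝ) ≤ (if n ≡ 0 [MOD W] then 0 else (1 + ε) * ((1 + ε) * H) + 1) := by
      split_ifs <;> positivity
    have h4 : (0 : ℝ) ≤ lam * (bad W Y n T : ℝ) := by positivity
    have h5 : 0 ≤ α * thw n g := mul_nonneg hα.le h1
    have h6 : 0 ≤ β * thw (n - Y) Y := mul_nonneg hβ.le h2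
    simp only [hG]
    linarith
  have hGsum : ∑ n ∈ Icc 1 ⌊3 * X⌋₊, nu X W 0 n * G n ≤ (1 + ε / 2) * ((1 + ε) * H) * N1 := by
    have h1 : ∑ n ∈ Icc 1 ⌊3 * X⌋₊, nu X W 0 n * G n =
        ∑ n ∈ Icc 1 ⌊3 * X⌋₊, nu X W 0 n * (α * thw n g + β * thw (n - Y) Y) +
          lam * ∑ n ∈ Icc 1 ⌊3 * X⌋₊, nu X W 0 n * (bad W Y n T : ℝ) := by
      rw [Finset.mul_sum, ← Finset.sum_add_distrib]
      apply Finset.sum_congr rfl
      intro n _
      simp only [hG]
      by_cases hm : n ≡ 0 [MOD W]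
      · rw [if_pos hm]
        ring
      · have : nu X W 0 n = 0 := by
          unfold nu
          rw [if_neg hm]
        rw [this]
        ring
    rw [h1]
    have h2 : lam * (160 * R * σ * N1) ≤ 64 / 100 * ε * H * N1 := by
      have h3 : lam * (160 * R * σ * N1) = 640 / κ * σ * H * N1 := by
        rw [hlam]
        field_simp
        ring
      rw [h3]
      have h4 : 640 / κ * σ ≤ 64 / 100 * ε := by
        rw [div_mul_eq_mul_div, div_le_iff₀ hκ]
        linarith
      have h5 : 0 ≤ H * N1 := by positivity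
      calc 640 / κ * σ * H * N1 = (640 / κ * σ) * (H * N1) := by ring
        _ ≤ (64 / 100 * ε) * (H * N1) := mul_le_mul_of_nonneg_right h4 h5
        _ = _ := by ring
    have h3 : lam * ∑ n ∈ Icc 1 ⌊3 * X⌋₊, nu X W 0 n * (bad W Y n T : ℝ) ≤ lam * (160 * R * σ * N1) :=
      mul_le_mul_of_nonneg_left hT3 hlam0.le
    have h4 : (1 + ε / 2) * H * N1 + 64 / 100 * ε * H * N1 ≤ (1 + ε / 2) * ((1 + ε) * H) * N1 := by
      have h5 : 0 ≤ ε * (H * N1) := by positivity
      have h6 : 0 ≤ ε * ε * (H * N1) := by positivity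
      have e1 : (1 + ε / 2) * H * N1 + 64 / 100 * ε * H * N1 = H * N1 + 114 / 100 * (ε * (H * N1)) := by ring
      have e2 : (1 + ε / 2) * ((1 + ε) * H) * N1 = H * N1 + 3 / 2 * (ε * (H * N1)) + 1 / 2 * (ε * ε * (H * N1)) := by ring
      rw [e1, e2]
      linarith only [h5, h6]
    linarith only [hsumT, h2, h3, h4]
  have hcnt := count_few X hXpos W 0 G hG0 ((1 + ε) * H) ε N1 (by positivity) hε hε1 rfl hGsum
  have hsub : rowset X (fun n => G n ≤ (1 + ε) * ((1 + ε) * H)) ⊆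
      rowset X (fun n => n ≡ 0 [MOD W] ∧
            (Real.log X - 1) * (α * cnt n g + β * cnt (n - Y) Y) ≤ (1 + ε) ^ 2 * (α * A₁ + β * A₂) ∧
            (bad W Y n T : ℝ) ≤ κ * R) := by
    intro n hn
    obtain ⟨m1, m2, m3, m4⟩ := mem_rowset.1 hn
    have t1 := thw_nonneg n g
    have t2 := thw_nonneg (n - Y) Y
    have t3 : 0 ≤ α * thw n g := mul_nonneg hα.le t1
    have t4 : 0 ≤ β * thw (n - Y) Y := mul_nonneg hβ.le t2
    have t5 : (0 : ℝ) ≤ lam * (bad W Y n T : ℝ) := by positivity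
    simp only [hG] at m4
    have hmod : n ≡ 0 [MOD W] := by
      by_contra hc
      rw [if_neg hc] at m4
      linarith
    rw [if_pos hmod, add_zero] at m4
    refine mem_rowset.2 ⟨m1, m2, m3, hmod, ?_, ?_⟩
    · have hl2 : Real.log 2 ≤ 1 := by
        have := Real.log_two_lt_d9
        linarith
      have hYX : (Y : ℝ) ≤ X / 2 := hY.trans hpk
      have hYn : Y ≤ n := by
        have : (Y : ℝ) ≤ n := by linarith
        exact_mod_cast this
      have c1 : (Real.log X - 1) * cnt n g ≤ thw n g := by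
        refine le_trans ?_ (thw_ge n g X hXpos m2)
        apply mul_le_mul_of_nonneg_right _ (Nat.cast_nonneg _)
        linarith
      have c2 : (Real.log X - 1) * cnt (n - Y) Y ≤ thw (n - Y) Y := by
        refine le_trans ?_ (thw_ge (n - Y) Y (X / 2) (by linarith) (by
          rw [Nat.cast_sub hYn]
          linarith))
        apply mul_le_mul_of_nonneg_right _ (Nat.cast_nonneg _)
        rw [Real.log_div hXpos.ne' (by norm_num)]
        linarith
      have c3 : H ≤ α * A₁ + β * A₂ := by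
        have := mul_le_mul_of_nonneg_left hVA hα.le
        have := mul_le_mul_of_nonneg_left hVB hβ.le
        rw [hH]
        linarith
      have c4 := mul_le_mul_of_nonneg_left c1 hα.le
      have c5 := mul_le_mul_of_nonneg_left c2 hβ.le
      have c6 : (1 + ε) ^ 2 * H ≤ (1 + ε) ^ 2 * (α * A₁ + β * A₂) :=
        mul_le_mul_of_nonneg_left c3 (by positivity)
      have c7 : (1 + ε) * ((1 + ε) * H) = (1 + ε) ^ 2 * H := by ring
      rw [c7] at m4
      linarith
    · have h1 : lam * (bad W Y n T : ℝ) ≤ 4 * H := by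
        have h2 : (1 + ε) * (1 + ε) ≤ 4 := by nlinarith only [hε, hε1]
        have h3 : (1 + ε) * (1 + ε) * H ≤ 4 * H := mul_le_mul_of_nonneg_right h2 hH0.le
        have h4 : (1 + ε) * ((1 + ε) * H) = (1 + ε) * (1 + ε) * H := by ring
        rw [h4] at m4
        linarith only [m4, h3, t3, t4]
      rw [hlam, div_mul_eq_mul_div, div_le_iff₀ (by positivity)] at h1
      have h3 : (4 * H) * (bad W Y n T : ℝ) ≤ (4 * H) * (κ * R) := h1
      exact le_of_mul_le_mul_left h3 (by positivity)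
  have h1 : ((rowset X (fun n => G n ≤ (1 + ε) * ((1 + ε) * H))).card : ℝ) ≤
      ((rowset X (fun n => n ≡ 0 [MOD W] ∧
            (Real.log X - 1) * (α * cnt n g + β * cnt (n - Y) Y) ≤ (1 + ε) ^ 2 * (α * A₁ + β * A₂) ∧
            (bad W Y n T : ℝ) ≤ κ * R)).card : ℝ) := by
    exact_mod_cast Finset.card_le_card hsub
  refine le_trans ?_ (hcnt.trans h1)
  have h3 := WD_le X D hD (by linarith) S ps
  have h4 : Real.exp (-(3 / 2 * (Real.log X / D))) ≤ 1 / W := by
    rw [Real.exp_neg, inv_eq_one_div]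
    exact one_div_le_one_div_of_le hW0 h3
  calc ε / 200 * X * Real.exp (-(3 / 2 * (Real.log X / D))) ≤ ε / 200 * X * (1 / W) :=
        mul_le_mul_of_nonneg_left h4 (by positivity)
    _ ≤ ε / 4 * (X / 40 / W) := by
        rw [show ε / 4 * (X / 40 / W) = ε / 160 * X * (1 / W) by ring]
        refine mul_le_mul_of_nonneg_right ?_ (by positivity)
        refine mul_le_mul_of_nonneg_right ?_ hXpos.le
        linarith
    _ ≤ ε / 4 * N1 := mul_le_mul_of_nonneg_left hN1low (by positivity)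

end Pool.Agent.R526.SP
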